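import Pool.Agent.LibWeil46.RB1
set_option autoImplicit false

namespace Pool.Weil46

open Polynomial
open scoped Classical



/-- B3 -/
theorem card_TN_le (p : ℕ) [Fact p.Prime] (K : Type) [Field K] [Fintype K] [Algebra (ZMod p) K]
    (a b : ZMod p) (ha : a ≠ 0) (hb : b ≠ 0) (N : ℕ)
    (hN : ∀ D : CD K, D.p = p → D.k = p - 1 → ∀ Z : Finset (Kˣ × K), (∀ P ∈ Z, D.IsPt P) → Z.card ≤ N)
    (t s : ZMod p) (hs : s ≠ 0) : p * (p - 1) * Nat.card (TN p K a b t s) ≤ N := by
  have hp : p.Prime := Fact.out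
  have hchar : CharP K p := charP_of_injective_algebraMap' (ZMod p) p
  have hfd : FiniteDimensional (ZMod p) K := Module.Finite.of_finite
  obtain ⟨e, he⟩ := Algebra.trace_surjective (ZMod p) K t
  obtain ⟨c0, hc0⟩ := FiniteField.norm_surjective (ZMod p) K s
  have hc0' : c0 ≠ 0 := by
    rintro rfl
    rw [Algebra.norm_zero] at hc0
    exact hs hc0.symm
  have hinj := (algebraMap (ZMod p) K).injective
  have ha' : algebraMap (ZMod p) K a ≠ 0 := fun h => ha (hinj (by rw [h, map_zero]))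
  have hb' : algebraMap (ZMod p) K b ≠ 0 := fun h => hb (hinj (by rw [h, map_zero]))
  set c : Kˣ := Units.mk0 c0 hc0' with hc
  have h2 := hp.two_le
  let D : CD K :=
    { p := p
      k := p - 1
      hp := hp
      hchar := hchar
      hk := by omega
      hcop := by
        refine (hp.coprime_iff_not_dvd.mpr (fun h => ?_)).symm
        have := Nat.le_of_dvd (by omega) h
        omega
      α := algebraMap (ZMod p) K a * (c : K)
      β := algebraMap (ZMod p) K b * ((c⁻¹ : Kˣ) : K)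
      e := e
      hα := mul_ne_zero ha' c.ne_zero
      hβ := mul_ne_zero hb' (c⁻¹).ne_zero }
  have hz : ∀ x ∈ TN p K a b t s, ∃ z : Kˣ, c * z ^ (p - 1) = x := by
    intro x hx
    obtain ⟨z, hz⟩ := exists_root_of_norm_one p K (c⁻¹ * x) (by
      have h3 : Algebra.norm (ZMod p) (x : K) = s := hx.2
      have h4 : Algebra.norm (ZMod p) (c : K) * Algebra.norm (ZMod p) (((c⁻¹ * x : Kˣ)) : K) = s := by
        rw [← map_mul, ← h3]
        congr 1
        rw [← Units.val_mul, mul_inv_cancel_left]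
      have h5 : Algebra.norm (ZMod p) (c : K) = s := hc0
      rw [h5] at h4
      exact mul_left_cancel₀ hs (by rw [h4, mul_one]))
    exact ⟨z, by rw [hz, mul_inv_cancel_left]⟩
  have hy : ∀ x ∈ TN p K a b t s, ∃ y : K, y ^ p - y = algebraMap (ZMod p) K a * (x : K)
      + algebraMap (ZMod p) K b * ((x⁻¹ : Kˣ) : K) - e := by
    intro x hx
    exact exists_AS p K _ (by rw [map_sub, he, hx.1, sub_self])
  choose! z hz using hz
  choose! y hy using hy
  -- the map
  have hone : ∀ ζ : (ZMod p)ˣ, (Units.map (algebraMap (ZMod p) K).toMonoidHom ζ) ^ (p - 1) = 1 := by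
    intro ζ
    rw [← map_pow, ZMod.units_pow_card_sub_one_eq_one, map_one]
  let g : (TN p K a b t s) × ((ZMod p)ˣ × ZMod p) → Kˣ × K := fun w =>
    (Units.map (algebraMap (ZMod p) K).toMonoidHom w.2.1 * z w.1.1,
      y w.1.1 + algebraMap (ZMod p) K w.2.2)
  have hgpt : ∀ w, D.IsPt (g w) := by
    rintro ⟨⟨x, hx⟩, ζ, u⟩
    show (y x + algebraMap (ZMod p) K u) ^ p - (y x + algebraMap (ZMod p) K u) =
      algebraMap (ZMod p) K a * (c : K) *
        ((Units.map (algebraMap (ZMod p) K).toMonoidHom ζ * z x : Kˣ) : K) ^ (p - 1) +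
      algebraMap (ZMod p) K b * ((c⁻¹ : Kˣ) : K) *
        (((Units.map (algebraMap (ZMod p) K).toMonoidHom ζ * z x : Kˣ)⁻¹ : Kˣ) : K) ^ (p - 1) - e
    have h3 : (Units.map (algebraMap (ZMod p) K).toMonoidHom ζ * z x) ^ (p - 1) = c⁻¹ * x := by
      rw [mul_pow, hone, one_mul]
      exact eq_inv_mul_of_mul_eq (hz x hx)
    have h4 : ((Units.map (algebraMap (ZMod p) K).toMonoidHom ζ * z x : Kˣ) : K) ^ (p - 1) =
        ((c⁻¹ * x : Kˣ) : K) := by
      rw [← Units.val_pow_eq_pow_val, h3]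
    have h5 : (((Units.map (algebraMap (ZMod p) K).toMonoidHom ζ * z x : Kˣ)⁻¹ : Kˣ) : K) ^ (p - 1) =
        (((c⁻¹ * x : Kˣ)⁻¹ : Kˣ) : K) := by
      rw [← Units.val_pow_eq_pow_val, inv_pow, h3]
    rw [h4, h5, add_pow_char, ← map_pow, ZMod.pow_card]
    have h6 := hy x hx
    have h7 : (c : K) * ((c⁻¹ * x : Kˣ) : K) = (x : K) := by
      rw [← Units.val_mul, mul_inv_cancel_left]
    have h8 : ((c⁻¹ : Kˣ) : K) * (((c⁻¹ * x : Kˣ)⁻¹ : Kˣ) : K) = ((x⁻¹ : Kˣ) : K) := by
      rw [← Units.val_mul]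
      congr 1
      rw [mul_inv_rev, inv_inv, mul_comm x⁻¹ c, inv_mul_cancel_left]
    rw [mul_assoc, h7, mul_assoc, h8, ← h6]
    ring
  have hginj : Function.Injective g := by
    rintro ⟨⟨x, hx⟩, ζ, u⟩ ⟨⟨x', hx'⟩, ζ', u'⟩ h
    have h3 : Units.map (algebraMap (ZMod p) K).toMonoidHom ζ * z x =
        Units.map (algebraMap (ZMod p) K).toMonoidHom ζ' * z x' := congrArg Prod.fst h
    have h4 : y x + algebraMap (ZMod p) K u = y x' + algebraMap (ZMod p) K u' :=
      congrArg Prod.snd h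
    have h5 : x = x' := by
      rw [← hz x hx, ← hz x' hx']
      have h6 := congrArg (fun v => v ^ (p - 1)) h3
      simp only [mul_pow, hone, one_mul] at h6
      rw [h6]
    subst h5
    have h6 := mul_right_cancel h3
    have h7 : Function.Injective (Units.map (algebraMap (ZMod p) K).toMonoidHom) :=
      Units.map_injective hinj
    have h8 := h7 h6
    subst h8
    have h9 := hinj (add_left_cancel h4)
    subst h9
    rfl
  have hfin : Finite (TN p K a b t s) := Subtype.finite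
  have hZ := hN D rfl rfl (Finset.univ.filter (fun P => D.IsPt P)) (by
    intro P hP
    exact (Finset.mem_filter.mp hP).2)
  refine le_trans ?_ hZ
  have h3 : Nat.card ((TN p K a b t s) × ((ZMod p)ˣ × ZMod p)) ≤
      Nat.card {P : Kˣ × K // P ∈ Finset.univ.filter (fun P => D.IsPt P)} := by
    apply Nat.card_le_card_of_injective
      (fun w => (⟨g w, Finset.mem_filter.mpr ⟨Finset.mem_univ _, hgpt w⟩⟩ :
        {P : Kˣ × K // P ∈ Finset.univ.filter (fun P => D.IsPt P)}))
    intro w w' h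
    exact hginj (congrArg Subtype.val h)
  rw [Nat.card_prod, Nat.card_prod, Nat.card_eq_fintype_card (α := (ZMod p)ˣ), ZMod.card_units,
    Nat.card_zmod] at h3
  have h4 : Nat.card {P : Kˣ × K // P ∈ Finset.univ.filter (fun P => D.IsPt P)} =
      (Finset.univ.filter (fun P => D.IsPt P)).card := by
    rw [Nat.card_eq_fintype_card, Fintype.card_coe]
  rw [h4] at h3
  calc p * (p - 1) * Nat.card (TN p K a b t s) = Nat.card (TN p K a b t s) * ((p - 1) * p) := by ring
    _ ≤ _ := h3

end Pool.Weil46
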