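import Pool.Agent.LibWeil46.RB4
set_option autoImplicit false

namespace Pool.Weil46

open Polynomial
open scoped Classical



section B
variable (p : ℕ) [Fact p.Prime] (K : Type) [Field K] [Fintype K] [Algebra (ZMod p) K]

/-- trace and norm of `x` -/
noncomputable def TNmap (a b : ZMod p) (x : Kˣ) : ZMod p × (ZMod p)ˣ :=
  (Algebra.trace (ZMod p) K (algebraMap (ZMod p) K a * (x : K)
      + algebraMap (ZMod p) K b * ((x⁻¹ : Kˣ) : K)), Units.map (Algebra.norm (ZMod p)) x)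

theorem card_fibre (a b : ZMod p) (j : ZMod p × (ZMod p)ˣ) :
    Nat.card (TN p K a b j.1 (j.2 : ZMod p)) =
      (Finset.univ.filter (fun x : Kˣ => TNmap p K a b x = j)).card := by
  rw [Nat.card_eq_fintype_card, ← Set.toFinset_card]
  congr 1
  ext x
  rw [Set.mem_toFinset, Finset.mem_filter]
  simp only [TN, Set.mem_ofPred_eq, Finset.mem_univ, true_and, TNmap, Prod.ext_iff, Units.ext_iff,
    Units.coe_map]

/-- B6: group `x` by `(t, s)`, subtract the mean (`∑ ψ = 0`) and use B5 with index `ZMod p × units` -/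
theorem SK_bound (χ : MulChar (ZMod p) ℂ) (ψ : AddChar (ZMod p) ℂ) (hψ : ψ ≠ 1) (a b : ZMod p)
    (r A : ℕ) (hr : 1 ≤ r) (hq : Fintype.card K = r ^ 2)
    (hN : ∀ t s : ZMod p, s ≠ 0 → p * (p - 1) * Nat.card (TN p K a b t s) ≤ r ^ 2 + A * r) :
    ‖SK p K χ ψ a b‖ ≤ (p : ℝ) ^ 2 * (A + 1) * r := by
  have hp : p.Prime := Fact.out
  set M : ZMod p × (ZMod p)ˣ → ℝ := fun j =>
    ((Finset.univ.filter (fun x : Kˣ => TNmap p K a b x = j)).card : ℝ) with hM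
  have hcard : (Fintype.card (ZMod p × (ZMod p)ˣ) : ℝ) = ((p * (p - 1) : ℕ) : ℝ) := by
    rw [Fintype.card_prod, ZMod.card, ZMod.card_units]
  have hcpos : (0 : ℝ) < ((p * (p - 1) : ℕ) : ℝ) := by
    have : 0 < p * (p - 1) := Nat.mul_pos hp.pos (by have := hp.two_le; omega)
    exact_mod_cast this
  have hsum : ∑ j, M j = (r : ℝ) ^ 2 - 1 := by
    have h1 : (Finset.univ : Finset Kˣ).card = ∑ j : ZMod p × (ZMod p)ˣ,
        (Finset.univ.filter (fun x : Kˣ => TNmap p K a b x = j)).card :=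
      Finset.card_eq_sum_card_fiberwise fun x _ => Finset.mem_univ _
    have h2 : (Finset.univ : Finset Kˣ).card = r ^ 2 - 1 := by
      rw [Finset.card_univ, Fintype.card_units, hq]
    have h3 : (1 : ℕ) ≤ r ^ 2 := Nat.one_le_pow _ _ hr
    have h4 : ∑ j, M j = (((r ^ 2 - 1 : ℕ)) : ℝ) := by
      rw [← h2, h1]; push_cast; rfl
    rw [h4, Nat.cast_sub h3]; push_cast; ring
  have hup : ∀ j, (Fintype.card (ZMod p × (ZMod p)ˣ) : ℝ) * M j ≤ (r : ℝ) ^ 2 + A * r := by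
    intro j
    have h1 := hN j.1 j.2 j.2.ne_zero
    rw [card_fibre] at h1
    rw [hcard]
    have h2 : (((p * (p - 1) * (Finset.univ.filter (fun x : Kˣ => TNmap p K a b x = j)).card : ℕ)) : ℝ)
        ≤ ((r ^ 2 + A * r : ℕ) : ℝ) := by exact_mod_cast h1
    push_cast at h2 ⊢
    exact h2
  have hdev := dev_of_upper M r A (by exact_mod_cast hr) (Nat.cast_nonneg A) hsum hup
  -- grouping
  have hSK : SK p K χ ψ a b = ∑ j : ZMod p × (ZMod p)ˣ, (M j : ℂ) * (χ (j.2 : ZMod p) * ψ j.1) := by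
    rw [SK]
    have h1 : ∀ x : Kˣ, χ (Algebra.norm (ZMod p) (x : K)) * ψ (Algebra.trace (ZMod p) K
        (algebraMap (ZMod p) K a * (x : K) + algebraMap (ZMod p) K b * ((x⁻¹ : Kˣ) : K))) =
        χ ((TNmap p K a b x).2 : ZMod p) * ψ (TNmap p K a b x).1 := by
      intro x; rfl
    rw [Finset.sum_congr rfl fun x _ => h1 x]
    rw [← Finset.sum_fiberwise (Finset.univ : Finset Kˣ) (TNmap p K a b)
      (fun x => χ ((TNmap p K a b x).2 : ZMod p) * ψ (TNmap p K a b x).1)]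
    refine Finset.sum_congr rfl fun j _ => ?_
    have h2 : ∀ x ∈ Finset.univ.filter (fun x : Kˣ => TNmap p K a b x = j),
        χ ((TNmap p K a b x).2 : ZMod p) * ψ (TNmap p K a b x).1 = χ (j.2 : ZMod p) * ψ j.1 := by
      intro x hx
      rw [(Finset.mem_filter.1 hx).2]
    rw [Finset.sum_congr rfl h2, Finset.sum_const, nsmul_eq_mul]
    simp only [hM, Complex.ofReal_natCast]
  have hzero : ∑ j : ZMod p × (ZMod p)ˣ, (χ (j.2 : ZMod p) * ψ j.1) = 0 := by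
    rw [Fintype.sum_prod_type_right]
    refine Finset.sum_eq_zero fun s _ => ?_
    show ∑ x, χ (s : ZMod p) * ψ x = 0
    rw [← Finset.mul_sum, AddChar.sum_eq_zero_of_ne_one hψ, mul_zero]
  set c : ℝ := (r : ℝ) ^ 2 / Fintype.card (ZMod p × (ZMod p)ˣ) with hc
  have hSK2 : SK p K χ ψ a b = ∑ j : ZMod p × (ZMod p)ˣ, ((M j - c : ℝ) : ℂ) * (χ (j.2 : ZMod p) * ψ j.1) := by
    rw [hSK]
    have : ∑ j : ZMod p × (ZMod p)ˣ, ((M j - c : ℝ) : ℂ) * (χ (j.2 : ZMod p) * ψ j.1)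
        = ∑ j : ZMod p × (ZMod p)ˣ, (M j : ℂ) * (χ (j.2 : ZMod p) * ψ j.1)
          - (c : ℂ) * ∑ j : ZMod p × (ZMod p)ˣ, (χ (j.2 : ZMod p) * ψ j.1) := by
      rw [Finset.mul_sum, ← Finset.sum_sub_distrib]
      refine Finset.sum_congr rfl fun j _ => ?_
      push_cast; ring
    rw [this, hzero, mul_zero, sub_zero]
  rw [hSK2]
  have hterm : ∀ j ∈ (Finset.univ : Finset (ZMod p × (ZMod p)ˣ)),
      ‖((M j - c : ℝ) : ℂ) * (χ (j.2 : ZMod p) * ψ j.1)‖ ≤ ((A : ℝ) + 1) * r := by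
    intro j _
    rw [norm_mul, norm_mul, Complex.norm_real, Real.norm_eq_abs]
    have h1 : ‖χ (j.2 : ZMod p)‖ ≤ 1 := DirichletCharacter.norm_le_one χ _
    have h2 : ‖ψ j.1‖ ≤ 1 := (AddChar.norm_apply ψ j.1).le
    calc |M j - c| * (‖χ (j.2 : ZMod p)‖ * ‖ψ j.1‖) ≤ |M j - c| * (1 * 1) := by
          gcongr
      _ = |M j - c| := by ring
      _ ≤ _ := hdev j
  refine (norm_sum_le_of_le _ hterm).trans ?_
  rw [Finset.sum_const, nsmul_eq_mul, Finset.card_univ, hcard]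
  have h5 : ((p * (p - 1) : ℕ) : ℝ) ≤ (p : ℝ) ^ 2 := by
    have : p * (p - 1) ≤ p ^ 2 := by
      rw [pow_two]; exact Nat.mul_le_mul_left p (Nat.sub_le p 1)
    exact_mod_cast this
  have h6 : 0 ≤ ((A : ℝ) + 1) * r := by positivity
  calc ((p * (p - 1) : ℕ) : ℝ) * (((A : ℝ) + 1) * r) ≤ (p : ℝ) ^ 2 * (((A : ℝ) + 1) * r) :=
        mul_le_mul_of_nonneg_right h5 h6
    _ = _ := by ring

end B

end Pool.Weil46
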