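import Pool.Agent.LibWeil46.RC1
set_option autoImplicit false

namespace Pool.Weil46

open Polynomial
open scoped Classical



section C3
variable (p : ℕ) [Fact p.Prime]
variable (χ : MulChar (ZMod p) ℂ) (ψ : AddChar (ZMod p) ℂ) (a b : ZMod p)

/-- C3 -/
theorem lam_one : lam p χ ψ a b 1 = 1 := by
  unfold lam
  have h1 : (1 : (ZMod p)[X]).natDegree = 0 := natDegree_one
  have h2 : (1 : (ZMod p)[X]).nextCoeff = 0 := by
    unfold nextCoeff
    rw [if_pos h1]
  have h3 : (1 : (ZMod p)[X]).coeff 1 = 0 := by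
    rw [coeff_one]; simp
  have h4 : (1 : (ZMod p)[X]).coeff 0 = 1 := by
    rw [coeff_one]; simp
  rw [h1, h2, h3, h4]
  simp

/-- C4 (`Monic.nextCoeff_mul`; if one constant coefficient is 0 both sides vanish) -/
theorem lam_mul (f g : (ZMod p)[X]) (hf : f.Monic) (hg : g.Monic) :
    lam p χ ψ a b (f * g) = lam p χ ψ a b f * lam p χ ψ a b g := by
  unfold lam
  rw [hf.natDegree_mul hg, hf.nextCoeff_mul hg, mul_coeff_zero, mul_coeff_one]
  by_cases h0 : f.coeff 0 = 0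
  · rw [h0, zero_mul, mul_zero, mul_zero, MulChar.map_zero]; ring
  by_cases h1 : g.coeff 0 = 0
  · simp only [h1, mul_zero, MulChar.map_zero, zero_mul]
  have e1 : (-1 : ZMod p) ^ (f.natDegree + g.natDegree) * (f.coeff 0 * g.coeff 0)
      = ((-1) ^ f.natDegree * f.coeff 0) * ((-1) ^ g.natDegree * g.coeff 0) := by
    rw [pow_add]; ring
  have e2 : -(a * (f.nextCoeff + g.nextCoeff)) -
        b * ((f.coeff 0 * g.coeff 1 + f.coeff 1 * g.coeff 0) / (f.coeff 0 * g.coeff 0))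
      = (-(a * f.nextCoeff) - b * (f.coeff 1 / f.coeff 0))
        + (-(a * g.nextCoeff) - b * (g.coeff 1 / g.coeff 0)) := by
    field_simp
    ring
  rw [e1, e2, map_mul, AddChar.map_add_eq_mul]
  ring

/-- C5 -/
theorem lam_pow (f : (ZMod p)[X]) (hf : f.Monic) (m : ℕ) :
    lam p χ ψ a b (f ^ m) = lam p χ ψ a b f ^ m := by
  induction m with
  | zero => rw [pow_zero, pow_zero, lam_one]
  | succ m ih => rw [pow_succ, pow_succ, lam_mul p χ ψ a b (f ^ m) f (hf.pow m) hf, ih]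

/-- C6 -/
theorem cc_zero : cc p χ ψ a b 0 = 1 := by
  unfold cc
  rw [sum_Mon]
  simp [lam_one]

/-- C7 -/
theorem cc_one : cc p χ ψ a b 1 = ∑ t : (ZMod p)ˣ, χ (t : ZMod p) * ψ (a * (t : ZMod p) + b * ((t⁻¹ : (ZMod p)ˣ) : ZMod p)) := by
  unfold cc
  rw [sum_Mon]
  have h1 : ∑ v : Fin 1 → ZMod p, lam p χ ψ a b (X ^ 1 + ∑ i : Fin 1, Polynomial.C (v i) * X ^ (i : ℕ))
      = ∑ c : ZMod p, lam p χ ψ a b (X + Polynomial.C c) := by
    refine Fintype.sum_equiv (Equiv.funUnique (Fin 1) (ZMod p)) _ _ ?_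
    intro v
    simp [Equiv.funUnique]
  rw [h1]
  have h2 : ∀ c : ZMod p, lam p χ ψ a b (X + Polynomial.C c) = χ (-c) * ψ (-(a * c) - b * (1 / c)) := by
    intro c
    unfold lam
    rw [natDegree_X_add_C, nextCoeff_X_add_C]
    have e0 : (X + Polynomial.C c : (ZMod p)[X]).coeff 0 = c := by simp
    have e1 : (X + Polynomial.C c : (ZMod p)[X]).coeff 1 = 1 := by
      rw [coeff_add, coeff_X_one, coeff_C]; simp
    rw [e0, e1]
    simp
  simp_rw [h2]
  have h3 : ∑ c : ZMod p, χ (-c) * ψ (-(a * c) - b * (1 / c))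
      = ∑ c : ZMod p, χ c * ψ (a * c + b * c⁻¹) := by
    refine Fintype.sum_equiv (Equiv.neg (ZMod p)) _ _ ?_
    intro c
    simp only [Equiv.neg_apply]
    congr 2
    rw [inv_neg, one_div]
    ring
  rw [h3]
  have h4 : ∑ t : (ZMod p)ˣ, χ (t : ZMod p) * ψ (a * (t : ZMod p) + b * ((t⁻¹ : (ZMod p)ˣ) : ZMod p))
      = ∑ t : (ZMod p)ˣ, (fun c : ZMod p => χ c * ψ (a * c + b * c⁻¹)) (t : ZMod p) := by
    refine Finset.sum_congr rfl ?_
    intro t _
    rw [Units.val_inv_eq_inv_val]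
  rw [h4]
  symm
  rw [← Finset.sum_subset (s₁ := Finset.univ.filter (fun c : ZMod p => c ≠ 0)) (Finset.subset_univ _)]
  · refine Finset.sum_bij (fun (t : (ZMod p)ˣ) _ => (t : ZMod p)) ?_ ?_ ?_ ?_
    · intro t _
      simp
    · intro t _ t' _ h
      exact Units.ext h
    · intro c hc
      simp only [Finset.mem_filter, Finset.mem_univ, true_and] at hc
      exact ⟨Units.mk0 c hc, Finset.mem_univ _, rfl⟩
    · intro t _
      rfl
  · intro c _ hc
    simp only [Finset.mem_filter, Finset.mem_univ, true_and, not_not] at hc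
    rw [hc, MulChar.map_zero, zero_mul]
end C3

end Pool.Weil46
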