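import Pool.Agent.LibWeil46.RC10
import Pool.Agent.LibWeil46.RC3
set_option autoImplicit false

namespace Pool.Weil46

open Polynomial
open scoped Classical



section C
variable (p : ℕ) [Fact p.Prime]
variable (χ : MulChar (ZMod p) ℂ) (ψ : AddChar (ZMod p) ℂ) (a b : ZMod p)

/-- C11: sum over multiples of a monic `u` of degree `e ≤ n` -/
theorem sum_dvd (n e : ℕ) (he : e ≤ n) (u : (ZMod p)[X]) (hu : u ∈ Mon p e) :
    ∑ f ∈ Mon p n, (if u ∣ f then lam p χ ψ a b f else 0) = lam p χ ψ a b u * cc p χ ψ a b (n - e) := by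
  obtain ⟨hum, hud⟩ := (mem_Mon p e u).1 hu
  rw [← Finset.sum_filter, cc, Finset.mul_sum]
  symm
  refine Finset.sum_bij (fun h _ => u * h) ?_ ?_ ?_ ?_
  · intro h hh
    obtain ⟨hm, hd⟩ := (mem_Mon p _ h).1 hh
    rw [Finset.mem_filter, mem_Mon]
    refine ⟨⟨hum.mul hm, ?_⟩, dvd_mul_right u h⟩
    rw [hum.natDegree_mul hm, hud, hd]; omega
  · intro h _ h' _ heq
    exact mul_left_cancel₀ hum.ne_zero heq
  · intro f hf
    rw [Finset.mem_filter, mem_Mon] at hf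
    obtain ⟨⟨hfm, hfd⟩, h, rfl⟩ := hf
    have hm : h.Monic := hum.of_mul_monic_left hfm
    refine ⟨h, ?_, rfl⟩
    rw [mem_Mon]
    refine ⟨hm, ?_⟩
    rw [hum.natDegree_mul hm, hud] at hfd
    omega
  · intro h hh
    obtain ⟨hm, hd⟩ := (mem_Mon p _ h).1 hh
    rw [lam_mul p χ ψ a b u h hum hm]

theorem reindex_pairs (n : ℕ) (H : ℕ → ℕ → ℂ) :
    ∑ x ∈ ((Finset.Icc 1 n) ×ˢ (Finset.Icc 1 n)).filter (fun x => x.1 * x.2 ≤ n), H x.1 x.2
      = ∑ j ∈ Finset.Icc 1 n, ∑ d ∈ j.divisors, H d (j / d) := by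
  rw [Finset.sum_sigma']
  refine Finset.sum_bij' (fun x _ => (⟨x.1 * x.2, x.1⟩ : Σ _ : ℕ, ℕ)) (fun y _ => (y.2, y.1 / y.2))
    ?_ ?_ ?_ ?_ ?_
  · rintro ⟨d, m⟩ hx
    simp only [Finset.mem_filter, Finset.mem_product, Finset.mem_Icc] at hx
    simp only [Finset.mem_sigma, Finset.mem_Icc, Nat.mem_divisors]
    obtain ⟨⟨⟨h1, h2⟩, h3, h4⟩, h5⟩ := hx
    refine ⟨⟨Nat.mul_pos h1 h3, h5⟩, dvd_mul_right _ _, ?_⟩
    exact (Nat.mul_pos h1 h3).ne'
  · rintro ⟨j, d⟩ hy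
    simp only [Finset.mem_sigma, Finset.mem_Icc, Nat.mem_divisors] at hy
    simp only [Finset.mem_filter, Finset.mem_product, Finset.mem_Icc]
    obtain ⟨⟨h1, h2⟩, h3, h4⟩ := hy
    have hd : 0 < d := Nat.pos_of_dvd_of_pos h3 h1
    have hdj : d ≤ j := Nat.le_of_dvd h1 h3
    have hmul : d * (j / d) = j := Nat.mul_div_cancel' h3
    have hq : 0 < j / d := Nat.div_pos hdj hd
    have hqj : j / d ≤ j := Nat.div_le_self _ _
    exact ⟨⟨⟨hd, hdj.trans h2⟩, hq, hqj.trans h2⟩, by rw [hmul]; exact h2⟩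
  · rintro ⟨d, m⟩ hx
    simp only [Finset.mem_filter, Finset.mem_product, Finset.mem_Icc] at hx
    have : 0 < d := hx.1.1.1
    simp only [Prod.mk.injEq, true_and]
    exact Nat.mul_div_cancel_left m this
  · rintro ⟨j, d⟩ hy
    simp only [Finset.mem_sigma, Finset.mem_Icc, Nat.mem_divisors] at hy
    have hmul : d * (j / d) = j := Nat.mul_div_cancel' hy.2.1
    simp only [hmul]
  · rintro ⟨d, m⟩ hx
    simp only [Finset.mem_filter, Finset.mem_product, Finset.mem_Icc] at hx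
    have : 0 < d := hx.1.1.1
    simp only [Nat.mul_div_cancel_left m this]

/-- C12: Newton identity, from C10, C11, C5 -/
theorem newton (n : ℕ) :
    (n : ℂ) * cc p χ ψ a b n = ∑ j ∈ Finset.Icc 1 n, ss p χ ψ a b j * cc p χ ψ a b (n - j) := by
  have h1 : (n : ℂ) * cc p χ ψ a b n = ∑ x ∈ PP p n,
      (x.1.1 : ℂ) * lam p χ ψ a b x.2 ^ x.1.2 * cc p χ ψ a b (n - x.1.1 * x.1.2) := by
    rw [cc, Finset.mul_sum]
    have h2 : ∀ f ∈ Mon p n, (n : ℂ) * lam p χ ψ a b f =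
        ∑ x ∈ PP p n, (x.1.1 : ℂ) * (if x.2 ^ x.1.2 ∣ f then lam p χ ψ a b f else 0) := by
      intro f hf
      rw [deg_eq p n f hf, Finset.sum_mul]
      refine Finset.sum_congr rfl fun x _ => ?_
      split_ifs <;> simp
    rw [Finset.sum_congr rfl h2, Finset.sum_comm]
    refine Finset.sum_congr rfl fun x hx => ?_
    rw [← Finset.mul_sum]
    rw [PP, Finset.mem_sigma, Finset.mem_filter, Finset.mem_filter, Finset.mem_product] at hx
    obtain ⟨⟨-, hle⟩, hg, -⟩ := hx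
    obtain ⟨hm, hd⟩ := (mem_Mon p _ _).1 hg
    have hpow : x.2 ^ x.1.2 ∈ Mon p (x.1.1 * x.1.2) := by
      rw [mem_Mon]
      refine ⟨hm.pow _, ?_⟩
      rw [hm.natDegree_pow, hd, mul_comm]
    rw [sum_dvd p χ ψ a b n (x.1.1 * x.1.2) hle _ hpow, lam_pow p χ ψ a b _ hm]
    ring
  rw [h1, PP, Finset.sum_sigma]
  have h3 := reindex_pairs n (fun d m => ∑ g ∈ (Mon p d).filter (fun g => Irreducible g),
    (d : ℂ) * lam p χ ψ a b g ^ m * cc p χ ψ a b (n - d * m))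
  refine Eq.trans ?_ (h3.trans ?_)
  · rfl
  · refine Finset.sum_congr rfl fun j hj => ?_
    rw [ss, Finset.sum_mul]
    refine Finset.sum_congr rfl fun d hd => ?_
    rw [Finset.sum_mul]
    refine Finset.sum_congr rfl fun g _ => ?_
    rw [Nat.mul_div_cancel' (Nat.dvd_of_mem_divisors hd)]

end C

end Pool.Weil46
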