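import Pool.Agent.LibWeil46.RC1
import Pool.Agent.LibWeil46.RC3
set_option autoImplicit false

namespace Pool.Weil46

open Polynomial
open scoped Classical

section C
variable (p : ℕ) [Fact p.Prime]



variable (χ : MulChar (ZMod p) ℂ) (ψ : AddChar (ZMod p) ℂ) (a b : ZMod p)

/-- the weight of a monic polynomial of degree two -/
theorem lam_two (v : Fin 2 → ZMod p) :
    lam p χ ψ a b (X ^ 2 + ∑ i : Fin 2, Polynomial.C (v i) * X ^ (i : ℕ)) =
      χ (v 0) * ψ (v 1 * (-(a + b / v 0))) := by
  set f : (ZMod p)[X] := X ^ 2 + ∑ i : Fin 2, Polynomial.C (v i) * X ^ (i : ℕ) with hf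
  have hf' : f = X ^ 2 + (Polynomial.C (v 1) * X + Polynomial.C (v 0)) := by
    rw [hf, Fin.sum_univ_two]
    simp only [Fin.val_zero, Fin.val_one, pow_zero, pow_one, mul_one]
    ring
  have hd : f.natDegree = 2 := by
    have h := mem_Mon p 2 f
    have h1 : f ∈ Mon p 2 := by
      rw [hf]
      exact Finset.mem_image_of_mem _ (Finset.mem_univ v)
    exact (h.1 h1).2
  have h0 : f.coeff 0 = v 0 := by
    rw [hf']; simp
  have h1 : f.coeff 1 = v 1 := by
    rw [hf']; simp [coeff_X, coeff_C]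
  have hn : f.nextCoeff = v 1 := by
    rw [nextCoeff_of_natDegree_pos (by omega), hd]
    exact h1
  unfold lam
  rw [hd, h0, h1, hn]
  congr 1
  · congr 1; ring
  · congr 1
    ring

/-- C8 -/
theorem cc_two (hψ : ψ ≠ 1) (ha : a ≠ 0) (hb : b ≠ 0) : cc p χ ψ a b 2 = p * χ (-b / a) := by
  unfold cc
  rw [sum_Mon]
  have h1 : ∑ v : Fin 2 → ZMod p, lam p χ ψ a b (X ^ 2 + ∑ i : Fin 2, Polynomial.C (v i) * X ^ (i : ℕ))
      = ∑ c : ZMod p × ZMod p, χ c.1 * ψ (c.2 * (-(a + b / c.1))) := by
    refine Fintype.sum_equiv (finTwoArrowEquiv (ZMod p)) _ _ fun v => ?_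
    rw [lam_two]
    rfl
  rw [h1, Fintype.sum_prod_type]
  have hprim : ψ.IsPrimitive := AddChar.IsPrimitive.of_ne_one hψ
  have h2 : ∀ x : ZMod p, ∑ y : ZMod p, χ x * ψ (y * (-(a + b / x))) =
      if x = -b / a then (p : ℂ) * χ (-b / a) else 0 := by
    intro x
    rw [← Finset.mul_sum, AddChar.sum_mulShift _ hprim, ZMod.card]
    rcases eq_or_ne x 0 with hx | hx
    · subst hx
      have h3 : (0 : ZMod p) ≠ -b / a := by
        intro h
        have := (div_eq_zero_iff.1 h.symm)
        rcases this with h4 | h4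
        · exact hb (neg_eq_zero.1 h4)
        · exact ha h4
      rw [if_neg h3]
      have : χ (0 : ZMod p) = 0 := MulChar.map_zero χ
      rw [this, zero_mul]
    · by_cases h4 : x = -b / a
      · rw [if_pos h4]
        have h5 : -(a + b / x) = 0 := by
          rw [h4]
          field_simp
          ring
        rw [if_pos h5, h4]
        ring
      · rw [if_neg h4]
        have h5 : -(a + b / x) ≠ 0 := by
          intro h
          apply h4
          have h6 : a + b / x = 0 := neg_eq_zero.1 h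
          field_simp at h6
          field_simp
          linear_combination h6
        rw [if_neg h5]
        simp
  rw [Finset.sum_congr rfl fun x _ => h2 x, Finset.sum_ite_eq' Finset.univ (-b / a), if_pos (Finset.mem_univ _)]

/-- C9: sum over the coefficient of `X^(n-1)` -/
theorem cc_of_ge (hψ : ψ ≠ 1) (ha : a ≠ 0) (n : ℕ) (hn : 3 ≤ n) : cc p χ ψ a b n = 0 := by
  obtain ⟨w, hw⟩ : ∃ w : ZMod p, ψ w ≠ 1 := by
    by_contra h
    push Not at h
    apply hψ
    ext x
    rw [h x]
    simp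
  set u : ZMod p := -(w / a) with hu
  have hau : -(a * u) = w := by rw [hu]; field_simp
  have hdeg : ∀ c : ZMod p, ∀ f : (ZMod p)[X], f ∈ Mon p n → f + Polynomial.C c * X ^ (n - 1) ∈ Mon p n := by
    intro c f hf
    obtain ⟨h1, h2⟩ := (mem_Mon p n f).1 hf
    have h3 : (Polynomial.C c * X ^ (n - 1) : (ZMod p)[X]).degree < f.degree := by
      rw [degree_eq_natDegree h1.ne_zero, h2]
      refine lt_of_le_of_lt (degree_C_mul_X_pow_le _ _) ?_
      exact_mod_cast (by omega : n - 1 < n)
    refine (mem_Mon p n _).2 ⟨h1.add_of_left h3, ?_⟩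
    rw [natDegree_add_eq_left_of_degree_lt h3, h2]
  have hlam : ∀ f ∈ Mon p n, lam p χ ψ a b (f + Polynomial.C u * X ^ (n - 1)) =
      ψ w * lam p χ ψ a b f := by
    intro f hf
    obtain ⟨h1, h2⟩ := (mem_Mon p n f).1 hf
    obtain ⟨h3, h4⟩ := (mem_Mon p n _).1 (hdeg u f hf)
    have c0 : (f + Polynomial.C u * X ^ (n - 1)).coeff 0 = f.coeff 0 := by
      rw [coeff_add, coeff_C_mul, coeff_X_pow, if_neg (by omega)]; simp
    have c1 : (f + Polynomial.C u * X ^ (n - 1)).coeff 1 = f.coeff 1 := by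
      rw [coeff_add, coeff_C_mul, coeff_X_pow, if_neg (by omega)]; simp
    have c2 : (f + Polynomial.C u * X ^ (n - 1)).nextCoeff = f.nextCoeff + u := by
      rw [nextCoeff_of_natDegree_pos (by omega), nextCoeff_of_natDegree_pos (by omega), h4, h2,
        coeff_add, coeff_C_mul, coeff_X_pow, if_pos rfl, mul_one]
    unfold lam
    rw [c0, c1, c2, h4, h2]
    have h5 : -(a * (f.nextCoeff + u)) - b * (f.coeff 1 / f.coeff 0) =
        w + (-(a * f.nextCoeff) - b * (f.coeff 1 / f.coeff 0)) := by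
      rw [← hau]; ring
    rw [h5, AddChar.map_add_eq_mul]
    ring
  have key : cc p χ ψ a b n = ψ w * cc p χ ψ a b n := by
    conv_rhs => rw [cc, Finset.mul_sum]
    rw [cc]
    symm
    refine Finset.sum_bij (fun f _ => f + Polynomial.C u * X ^ (n - 1)) ?_ ?_ ?_ ?_
    · intro f hf; exact hdeg u f hf
    · intro f _ g _ h; exact add_right_cancel h
    · intro g hg
      refine ⟨g + Polynomial.C (-u) * X ^ (n - 1), hdeg (-u) g hg, ?_⟩
      rw [map_neg]; ring
    · intro f hf; exact (hlam f hf).symm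
  have h6 : (1 - ψ w) * cc p χ ψ a b n = 0 := by
    rw [sub_mul, one_mul, ← key, sub_self]
  rcases mul_eq_zero.1 h6 with h7 | h7
  · exact absurd (sub_eq_zero.1 h7).symm hw
  · exact h7

end C

end Pool.Weil46
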