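import Pool.Agent.LibWeil46.RC11
import Pool.Agent.LibWeil46.RC8
import Pool.Agent.LibWeil46.RC3
set_option autoImplicit false

namespace Pool.Weil46

open Polynomial
open scoped Classical

section C
variable (p : ℕ) [Fact p.Prime]
variable (χ : MulChar (ZMod p) ℂ) (ψ : AddChar (ZMod p) ℂ) (a b : ZMod p)



/-- C13: from C12, C6, C9 -/
theorem ss_eq (hψ : ψ ≠ 1) (ha : a ≠ 0) : ∃ A B : ℂ, A + B = -(cc p χ ψ a b 1) ∧ A * B = cc p χ ψ a b 2 ∧
    ∀ n : ℕ, 1 ≤ n → ss p χ ψ a b n = -(A ^ n + B ^ n) := by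
  obtain ⟨s, hs⟩ := IsAlgClosed.exists_pow_nat_eq
    ((cc p χ ψ a b 1) ^ 2 - 4 * cc p χ ψ a b 2) (n := 2) (by norm_num)
  have hA : (-(cc p χ ψ a b 1) + s) / 2 + (-(cc p χ ψ a b 1) - s) / 2 = -(cc p χ ψ a b 1) := by ring
  have hB : (-(cc p χ ψ a b 1) + s) / 2 * ((-(cc p χ ψ a b 1) - s) / 2) = cc p χ ψ a b 2 := by
    linear_combination (-1 / 4 : ℂ) * hs
  refine ⟨(-(cc p χ ψ a b 1) + s) / 2, (-(cc p χ ψ a b 1) - s) / 2, hA, hB, ?_⟩
  generalize (-(cc p χ ψ a b 1) + s) / 2 = A at hA hB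
  generalize (-(cc p χ ψ a b 1) - s) / 2 = B at hA hB
  intro n
  induction n using Nat.strong_induction_on with
  | _ n ih =>
    intro hn
    rcases Nat.lt_or_ge n 3 with h3 | h3
    · interval_cases n
      · have h1 := newton p χ ψ a b 1
        rw [Finset.Icc_self, Finset.sum_singleton, Nat.sub_self, cc_zero, mul_one, Nat.cast_one,
          one_mul] at h1
        rw [← h1, pow_one, pow_one, hA, neg_neg]
      · have h1 := newton p χ ψ a b 2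
        have h2 := ih 1 (by norm_num) le_rfl
        rw [Finset.sum_Icc_succ_top (by norm_num), Finset.Icc_self, Finset.sum_singleton, h2] at h1
        norm_num at h1
        rw [cc_zero] at h1
        linear_combination (-1 : ℂ) * h1 - 2 * hB + (A + B) * hA
    · obtain ⟨m, rfl⟩ : ∃ m, n = m + 3 := ⟨n - 3, by omega⟩
      have h1 := newton p χ ψ a b (m + 3)
      rw [Finset.sum_Icc_succ_top (by omega), Finset.sum_Icc_succ_top (by omega),
        Finset.sum_Icc_succ_top (by omega), cc_of_ge p χ ψ a b hψ ha _ h3, mul_zero] at h1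
      have h2 : ∑ j ∈ Finset.Icc 1 m, ss p χ ψ a b j * cc p χ ψ a b (m + 3 - j) = 0 := by
        refine Finset.sum_eq_zero (fun j hj => ?_)
        have hj' := Finset.mem_Icc.1 hj
        rw [cc_of_ge p χ ψ a b hψ ha _ (by omega), mul_zero]
      have e1 : m + 3 - (m + 1) = 2 := by omega
      have e2 : m + 3 - (m + 1 + 1) = 1 := by omega
      have e3 : m + 3 - (m + 2 + 1) = 0 := by omega
      rw [h2, zero_add, e1, e2, e3, cc_zero, mul_one, ih (m + 1) (by omega) (by omega),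
        ih (m + 1 + 1) (by omega) (by omega)] at h1
      have e4 : ss p χ ψ a b (m + 3) = (A ^ (m + 1) + B ^ (m + 1)) * cc p χ ψ a b 2
          + (A ^ (m + 1 + 1) + B ^ (m + 1 + 1)) * cc p χ ψ a b 1 := by
        linear_combination (-1 : ℂ) * h1
      rw [e4]
      linear_combination (-(A ^ (m + 1) + B ^ (m + 1))) * hB
        + (A ^ (m + 1 + 1) + B ^ (m + 1 + 1)) * hA

end C

theorem growth_aux (A B : ℂ) (P C : ℝ) (μ0 : ℕ) (hP : 0 < P) (hAB : ‖A * B‖ = P)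
    (h : ∀ μ : ℕ, μ0 ≤ μ → ‖A ^ (2 * μ) + B ^ (2 * μ)‖ ≤ C * P ^ μ) : ‖A‖ ≤ Real.sqrt P := by
  by_contra hcon
  push Not at hcon
  have ha2 : P < ‖A‖ ^ 2 := (Real.sqrt_lt' (lt_of_le_of_lt (Real.sqrt_nonneg P) hcon)).1 hcon
  have hAB' : ‖A‖ * ‖B‖ = P := by rw [← norm_mul]; exact hAB
  have hb2 : ‖B‖ ^ 2 ≤ P := by
    by_contra hb
    push Not at hb
    have h1 : P * P < ‖A‖ ^ 2 * ‖B‖ ^ 2 := mul_lt_mul'' ha2 hb hP.le hP.le
    have h2 : ‖A‖ ^ 2 * ‖B‖ ^ 2 = P * P := by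
      rw [← mul_pow, hAB']; ring
    exact absurd h1 (by rw [h2]; exact lt_irrefl _)
  have h1 : 1 < ‖A‖ ^ 2 / P := (one_lt_div hP).2 ha2
  obtain ⟨n, hn⟩ := pow_unbounded_of_one_lt (C + 1) h1
  have h2 : C + 1 < (‖A‖ ^ 2 / P) ^ (max n μ0) :=
    lt_of_lt_of_le hn (pow_le_pow_right₀ h1.le (le_max_left _ _))
  have h3 := h (max n μ0) (le_max_right _ _)
  set μ := max n μ0
  have hPμ : 0 < P ^ μ := pow_pos hP μ
  have h4 : ‖A‖ ^ (2 * μ) ≤ C * P ^ μ + P ^ μ := by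
    have h5 : ‖A ^ (2 * μ)‖ ≤ ‖A ^ (2 * μ) + B ^ (2 * μ)‖ + ‖B ^ (2 * μ)‖ := by
      have h6 := norm_sub_le (A ^ (2 * μ) + B ^ (2 * μ)) (B ^ (2 * μ))
      rwa [add_sub_cancel_right] at h6
    have h7 : ‖B ^ (2 * μ)‖ ≤ P ^ μ := by
      rw [norm_pow, pow_mul]
      exact pow_le_pow_left₀ (by positivity) hb2 μ
    rw [norm_pow] at h5
    linarith
  rw [div_pow, lt_div_iff₀ hPμ, ← pow_mul] at h2
  linarith

/-- D1 -/
theorem growth (A B : ℂ) (P C : ℝ) (μ0 : ℕ) (hP : 0 < P) (hAB : ‖A * B‖ = P)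
    (h : ∀ μ : ℕ, μ0 ≤ μ → ‖A ^ (2 * μ) + B ^ (2 * μ)‖ ≤ C * P ^ μ) : ‖A + B‖ ≤ 2 * Real.sqrt P := by
  have h1 := growth_aux A B P C μ0 hP hAB h
  have h2 := growth_aux B A P C μ0 hP (by rw [mul_comm]; exact hAB)
    (fun μ hμ => by rw [add_comm]; exact h μ hμ)
  refine (norm_add_le A B).trans ?_
  linarith

end Pool.Weil46
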