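import Pool.Agent.LibWeil46.Def2
set_option autoImplicit false

namespace Pool.Weil46

open Polynomial
open scoped Classical

section C
variable (p : ℕ) [Fact p.Prime]

/-- C1 -/
theorem mem_Mon (n : ℕ) (f : (ZMod p)[X]) : f ∈ Mon p n ↔ f.Monic ∧ f.natDegree = n := by
  unfold Mon
  rw [Finset.mem_image]
  constructor
  · rintro ⟨v, -, rfl⟩
    have h : (∑ i : Fin n, Polynomial.C (v i) * X ^ (i : ℕ) : (ZMod p)[X]).degree < (n : WithBot ℕ) :=
      Polynomial.degree_sum_fin_lt v
    refine ⟨monic_X_pow_add h, natDegree_eq_of_degree_eq_some ?_⟩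
    rw [degree_add_eq_left_of_degree_lt, degree_X_pow]
    rw [degree_X_pow]
    exact h
  · rintro ⟨hf, hn⟩
    refine ⟨fun i => f.coeff i, Finset.mem_univ _, ?_⟩
    have h := hf.as_sum
    rw [hn, Finset.sum_range] at h
    exact h.symm

/-- coefficients of the polynomial given by a vector -/
theorem c1_coeff (n : ℕ) (v : Fin n → ZMod p) (j : Fin n) :
    (X ^ n + ∑ i : Fin n, Polynomial.C (v i) * X ^ (i : ℕ) : (ZMod p)[X]).coeff (j : ℕ) = v j := by
  rw [coeff_add, coeff_X_pow, if_neg (ne_of_lt j.2), zero_add, finsetSum_coeff,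
    Finset.sum_eq_single j]
  · rw [coeff_C_mul_X_pow, if_pos rfl]
  · intro i _ hij
    rw [coeff_C_mul_X_pow, if_neg]
    intro h
    exact hij (Fin.ext h.symm)
  · intro h
    exact absurd (Finset.mem_univ j) h

/-- C2: sums over `Mon` as sums over coefficient vectors -/
theorem sum_Mon (n : ℕ) (h : (ZMod p)[X] → ℂ) :
    ∑ f ∈ Mon p n, h f = ∑ v : Fin n → ZMod p, h (X ^ n + ∑ i : Fin n, Polynomial.C (v i) * X ^ (i : ℕ)) := by
  unfold Mon
  refine Finset.sum_image ?_
  intro v _ w _ hvw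
  funext j
  rw [← c1_coeff p n v j, ← c1_coeff p n w j]
  exact congrArg (fun f : (ZMod p)[X] => f.coeff (j : ℕ)) hvw

end C

end Pool.Weil46
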