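import Pool.Agent.LibWeil46.RC14
import Pool.Agent.LibWeil46.RC1
import Pool.Agent.LibWeil46.RC3
set_option autoImplicit false

namespace Pool.Weil46

open Polynomial
open scoped Classical



variable (p : ℕ) [Fact p.Prime]
variable (χ : MulChar (ZMod p) ℂ) (ψ : AddChar (ZMod p) ℂ) (a b : ZMod p)

/-- C15: number of elements with given minimal polynomial (`FiniteField.natCard_algHom_of_finrank_dvd`) -/
theorem card_minpoly (K : Type) [Field K] [Fintype K] [Algebra (ZMod p) K] (g : (ZMod p)[X])
    (hg : g.Monic) (hi : Irreducible g) (hd : g.natDegree ∣ Module.finrank (ZMod p) K) :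
    Nat.card {x : K | minpoly (ZMod p) x = g} = g.natDegree := by
  have : Fact (Irreducible g) := ⟨hi⟩
  have hfr : Module.finrank (ZMod p) (AdjoinRoot g) = g.natDegree := by
    rw [(AdjoinRoot.powerBasis hg.ne_zero).finrank, AdjoinRoot.powerBasis_dim]
  have h1 : Nat.card (AdjoinRoot g →ₐ[ZMod p] K) = g.natDegree := by
    rw [← hfr] at hd ⊢
    exact FiniteField.natCard_algHom_of_finrank_dvd hd
  rw [← h1]
  apply Nat.card_congr
  refine Equiv.trans ?_ (AdjoinRoot.equiv K (ZMod p) g hg.ne_zero).symm
  refine Equiv.subtypeEquivRight ?_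
  intro x
  rw [mem_aroots]
  constructor
  · intro h
    have h' : minpoly (ZMod p) x = g := h
    refine ⟨hg.ne_zero, ?_⟩
    rw [← h']
    exact minpoly.aeval _ _
  · rintro ⟨_, h⟩
    exact (minpoly.eq_of_irreducible_of_monic hi h hg).symm

/-- C16: from C14, C15 (the polynomial `X` has weight 0) -/
theorem SK_eq_ss (K : Type) [Field K] [Fintype K] [Algebra (ZMod p) K] :
    SK p K χ ψ a b = ss p χ ψ a b (Module.finrank (ZMod p) K) := by
  have hp : p.Prime := Fact.out
  have hfd : FiniteDimensional (ZMod p) K := Module.Finite.of_finite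
  have hn : Module.finrank (ZMod p) K ≠ 0 := Module.finrank_pos.ne'
  set n := Module.finrank (ZMod p) K with hndef
  -- weight of x through its minimal polynomial
  set W : (ZMod p)[X] → ℂ := fun g => lam p χ ψ a b g ^ (n / g.natDegree) with hW
  -- sum over all x in K
  have hzero : W (minpoly (ZMod p) (0 : K)) = 0 := by
    rw [minpoly.zero, hW]
    simp only [natDegree_X, Nat.div_one]
    have : lam p χ ψ a b X = 0 := by
      rw [lam, natDegree_X, coeff_X_zero, mul_zero, MulChar.map_zero, zero_mul]
    rw [this, zero_pow hn]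
  have h1 : SK p K χ ψ a b = ∑ x : K, W (minpoly (ZMod p) x) := by
    rw [SK]
    rw [← Finset.sum_erase (s := Finset.univ) (a := (0 : K)) (by exact hzero)]
    refine Finset.sum_bij' (fun (x : Kˣ) _ => (x : K))
      (fun (y : K) hy => Units.mk0 y (Finset.ne_of_mem_erase hy)) ?_ ?_ ?_ ?_ ?_
    · intro x _
      exact Finset.mem_erase.mpr ⟨x.ne_zero, Finset.mem_univ _⟩
    · intro y _
      exact Finset.mem_univ _
    · intro x _
      exact Units.ext rfl
    · intro y _
      rfl
    · intro x _
      exact (term_eq p χ ψ a b K x).2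
  rw [h1, ss]
  have hcard : ∀ d ∈ n.divisors, ∀ g ∈ (Mon p d).filter (fun g => Irreducible g),
      (d : ℂ) * lam p χ ψ a b g ^ (n / d) =
        ∑ x ∈ Finset.univ.filter (fun x : K => minpoly (ZMod p) x = g), W (minpoly (ZMod p) x) := by
    intro d hd g hg
    rw [Finset.mem_filter, mem_Mon] at hg
    obtain ⟨⟨hgm, hgd⟩, hgi⟩ := hg
    have h2 := card_minpoly p K g hgm hgi (by rw [hgd]; exact Nat.dvd_of_mem_divisors hd)
    have h3 : (Finset.univ.filter (fun x : K => minpoly (ZMod p) x = g)).card = d := by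
      rw [← hgd, ← h2, ← Fintype.card_subtype, Nat.card_eq_fintype_card]
      rfl
    rw [Finset.sum_congr rfl (fun x hx => by rw [(Finset.mem_filter.mp hx).2]), Finset.sum_const,
      h3, nsmul_eq_mul, hW]
    simp only [hgd]
  rw [Finset.sum_congr rfl (fun d hd => Finset.sum_congr rfl (hcard d hd))]
  rw [← Finset.sum_biUnion]
  · symm
    refine Finset.sum_fiberwise_of_maps_to ?_ _
    intro x _
    rw [Finset.mem_biUnion]
    have hint : IsIntegral (ZMod p) x := .of_finite _ _
    refine ⟨(minpoly (ZMod p) x).natDegree, ?_, ?_⟩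
    · rw [Nat.mem_divisors]
      exact ⟨minpoly.degree_dvd hint, hn⟩
    · rw [Finset.mem_filter, mem_Mon]
      exact ⟨⟨minpoly.monic hint, rfl⟩, minpoly.irreducible hint⟩
  · intro d _ d' _ hdd
    rw [Function.onFun, Finset.disjoint_left]
    intro g hg hg'
    rw [Finset.mem_filter, mem_Mon] at hg hg'
    exact hdd (hg.1.2.symm.trans hg'.1.2)

end Pool.Weil46
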