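import Pool.Agent.LibWeil46.RZ7
import Pool.Agent.LibWeil46.RB3
import Pool.Agent.LibWeil46.RB6
import Pool.Agent.LibWeil46.RC3
import Pool.Agent.LibWeil46.RC8
import Pool.Agent.LibWeil46.RC11
import Pool.Agent.LibWeil46.RC13
import Pool.Agent.LibWeil46.RC15
set_option autoImplicit false

namespace Pool.Weil46

open Polynomial
open scoped Classical



theorem norm_mulChar_unit (p : ℕ) [Fact p.Prime] (χ : MulChar (ZMod p) ℂ) (x : ZMod p) (hx : x ≠ 0) :
    ‖χ x‖ = 1 := by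
  obtain ⟨u, rfl⟩ := (isUnit_iff_ne_zero.mpr hx)
  have h1 : χ (u : ZMod p) ^ (Fintype.card (ZMod p)ˣ) = 1 := by
    rw [← map_pow, ← Units.val_pow_eq_pow_val, pow_card_eq_one, Units.val_one, map_one]
  exact Complex.norm_eq_one_of_pow_eq_one h1 Fintype.card_ne_zero

/-- D2: Weil bound -/
theorem weil (p : ℕ) [Fact p.Prime] (χ : MulChar (ZMod p) ℂ) (ψ : AddChar (ZMod p) ℂ) (hψ : ψ ≠ 1)
    (a b : ZMod p) (ha : a ≠ 0) (hb : b ≠ 0) :
    ‖∑ t : (ZMod p)ˣ, χ (t : ZMod p) * ψ (a * (t : ZMod p) + b * ((t⁻¹ : (ZMod p)ˣ) : ZMod p))‖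
      ≤ 2 * Real.sqrt p := by
  have hp : p.Prime := Fact.out
  obtain ⟨A, B, h1, h2, h3⟩ := ss_eq p χ ψ a b hψ ha
  rw [← cc_one]
  have h4 : ‖cc p χ ψ a b 1‖ = ‖A + B‖ := by rw [h1, norm_neg]
  rw [h4]
  have h5 : ‖A * B‖ = (p : ℝ) := by
    rw [h2, cc_two p χ ψ a b hψ ha hb, norm_mul, norm_mulChar_unit p χ _ (div_ne_zero (neg_ne_zero.mpr hb) ha),
      mul_one, Complex.norm_natCast]
  set c : ℕ := p * p with hc
  set A' : ℕ := 4 * c + 12 with hA'
  refine growth A B p ((p : ℝ) ^ 2 * (A' + 1)) ((c + 5) ^ 2) (by exact_mod_cast hp.pos) h5 ?_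
  intro μ hμ
  have hμ0 : μ ≠ 0 := by
    intro h; rw [h] at hμ; nlinarith [Nat.zero_le c]
  set n : ℕ := 2 * μ with hn
  have hn0 : n ≠ 0 := by omega
  have hcard : Nat.card (GaloisField p n) = p ^ n := GaloisField.card p n hn0
  have : Fintype (GaloisField p n) := Fintype.ofFinite _
  have hfin : Module.finrank (ZMod p) (GaloisField p n) = n := GaloisField.finrank p hn0
  set r : ℕ := p ^ μ with hr
  have hq : Fintype.card (GaloisField p n) = r ^ 2 := by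
    rw [← Nat.card_eq_fintype_card, hcard, hr, ← pow_mul, hn, mul_comm]
  have hrbig : (c + 5) ^ 2 ≤ r := by
    calc (c + 5) ^ 2 ≤ μ := hμ
      _ ≤ 2 ^ μ := (Nat.lt_two_pow_self).le
      _ ≤ p ^ μ := Nat.pow_le_pow_left hp.two_le μ
  have hr1 : 1 ≤ r := Nat.one_le_pow _ _ hp.pos
  have hN : ∀ t s : ZMod p, s ≠ 0 →
      p * (p - 1) * Nat.card (TN p (GaloisField p n) a b t s) ≤ r ^ 2 + A' * r := by
    intro t s hs
    refine card_TN_le p (GaloisField p n) a b ha hb _ ?_ t s hs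
    intro D hDp hDk Z hZ
    have hcst : D.cst = c := by
      rw [CD.cst, hDp, hDk, hc, Nat.sub_add_cancel hp.one_lt.le]
    have := D.pts_le r μ (by rw [hDp]) hq (by rw [hcst]; exact hrbig) Z hZ
    rw [hcst] at this
    exact this
  have h6 := SK_bound p (GaloisField p n) χ ψ hψ a b r A' hr1 hq hN
  rw [SK_eq_ss, hfin, h3 n (by omega), norm_neg] at h6
  refine h6.trans (le_of_eq ?_)
  rw [hr]; push_cast; ring

/-- Weil's bound for the standard additive character -/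
theorem weil_std (p : ℕ) [Fact p.Prime] (χ : MulChar (ZMod p) ℂ) (m n : ZMod p) (hm : m ≠ 0) (hn : n ≠ 0) :
    ‖∑ u : (ZMod p)ˣ, χ (u : ZMod p) * ZMod.stdAddChar (m * (u : ZMod p) + n * ((u⁻¹ : (ZMod p)ˣ) : ZMod p))‖
      ≤ 2 * Real.sqrt p := by
  refine weil p χ ZMod.stdAddChar ?_ m n hm hn
  intro h
  have h1 : (ZMod.stdAddChar (1 : ZMod p) : ℂ) = 1 := by rw [h]; rfl
  have h2 : (1 : ZMod p) = 0 := by
    apply ZMod.injective_stdAddChar
    rw [h1, AddChar.map_zero_eq_one]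
  exact one_ne_zero h2

end Pool.Weil46
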