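import Mathlib

set_option autoImplicit false

namespace Pool.Weil46

open Polynomial

/-- Data of the curve `y^p - y = α z^k + β z^{-k} - e` over `K`. -/
structure CD (K : Type) [Field K] where
  p : ℕ
  k : ℕ
  hp : p.Prime
  hchar : CharP K p
  hk : 1 ≤ k
  hcop : Nat.Coprime k p
  α : K
  β : K
  e : K
  hα : α ≠ 0
  hβ : β ≠ 0

variable {K : Type} [Field K]

/-- the Laurent polynomial `α T^k + β T^{-k} - e` -/
noncomputable def CD.f (D : CD K) : LaurentPolynomial K :=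
  LaurentPolynomial.C D.α * LaurentPolynomial.T (D.k : ℤ)
    + LaurentPolynomial.C D.β * LaurentPolynomial.T (-(D.k : ℤ)) - LaurentPolynomial.C D.e

/-- `Y^p - Y - f` -/
noncomputable def CD.P (D : CD K) : (LaurentPolynomial K)[X] := X ^ D.p - X - C D.f

/-- the coordinate ring -/
abbrev CD.R (D : CD K) : Type := AdjoinRoot D.P

/-- the monomial `z^i y^j` -/
noncomputable def CD.mono (D : CD K) (i : ℤ) (j : ℕ) : D.R :=
  AdjoinRoot.of D.P (LaurentPolynomial.T i) * (AdjoinRoot.root D.P) ^ j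

theorem CD.aux_deg (D : CD K) : (X + C D.f : (LaurentPolynomial K)[X]).degree < (D.p : WithBot ℕ) := by
  have h2 : 2 ≤ D.p := D.hp.two_le
  refine lt_of_le_of_lt (degree_X_add_C D.f).le ?_
  exact_mod_cast (by omega : 1 < D.p)

theorem CD.natDegree_P (D : CD K) : D.P.natDegree = D.p := by
  have h : D.P = X ^ D.p - (X + C D.f) := by rw [CD.P]; ring
  rw [h]
  refine natDegree_eq_of_degree_eq_some ?_
  rw [degree_sub_eq_left_of_degree_lt, degree_X_pow]
  rw [degree_X_pow]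
  exact D.aux_deg

theorem CD.monic (D : CD K) : D.P.Monic := by
  have h : D.P = X ^ D.p - (X + C D.f) := by rw [CD.P]; ring
  rw [h]
  exact monic_X_pow_sub D.aux_deg

/-- coordinate of `G` at `z^i y^j` (`0 ≤ j < p`) -/
noncomputable def CD.κ (D : CD K) (i : ℤ) (j : ℕ) (G : D.R) : K :=
  ((AdjoinRoot.modByMonicHom D.monic G).coeff j).coeff i

theorem CD.κ_add (D : CD K) (i : ℤ) (j : ℕ) (G H : D.R) :
    D.κ i j (G + H) = D.κ i j G + D.κ i j H := by
  simp only [CD.κ, map_add, coeff_add]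
  rfl

theorem CD.κ_smul (D : CD K) (i : ℤ) (j : ℕ) (c : K) (G : D.R) :
    D.κ i j (c • G) = c * D.κ i j G := by
  have h : c • G = (LaurentPolynomial.C c : LaurentPolynomial K) • G := by
    rw [Algebra.smul_def, Algebra.smul_def]; rfl
  simp only [CD.κ]
  rw [h, map_smul, coeff_smul, smul_eq_mul, ← LaurentPolynomial.smul_eq_C_mul]
  rfl

theorem CD.κ_zero (D : CD K) (i : ℤ) (j : ℕ) : D.κ i j 0 = 0 := by
  simp only [CD.κ, map_zero, coeff_zero]
  rfl

/-- the filtration: weights `σ i p + j k ≤ n` -/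
noncomputable def CD.F (D : CD K) (σ n : ℤ) : Submodule K D.R where
  carrier := {G | ∀ (i : ℤ) (j : ℕ), D.κ i j G ≠ 0 → σ * i * D.p + j * D.k ≤ n}
  add_mem' := by
    intro a b ha hb i j h
    by_cases h1 : D.κ i j a = 0
    · have h2 : D.κ i j b ≠ 0 := by
        intro h3; exact h (by rw [D.κ_add, h1, h3, add_zero])
      exact hb i j h2
    · exact ha i j h1
  zero_mem' := by
    intro i j h
    exact absurd (D.κ_zero i j) h
  smul_mem' := by
    intro c x hx i j h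
    refine hx i j ?_
    intro h3
    exact h (by rw [D.κ_smul, h3, mul_zero])

theorem CD.mem_F (D : CD K) (σ n : ℤ) (G : D.R) :
    G ∈ D.F σ n ↔ ∀ (i : ℤ) (j : ℕ), D.κ i j G ≠ 0 → σ * i * D.p + j * D.k ≤ n := Iff.rfl

/-- Riemann-Roch space `L(m (P_0 + P_∞))` -/
noncomputable def CD.L (D : CD K) (m : ℤ) : Submodule K D.R := D.F 1 m ⊓ D.F (-1) m

/-- exact pole order `n` at infinity -/
def CD.HasDeg (D : CD K) (G : D.R) (n : ℤ) : Prop := G ∈ D.F 1 n ∧ G ∉ D.F 1 (n - 1)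

/-- index set of the monomial basis of `L m` -/
noncomputable def CD.I (D : CD K) (m : ℕ) : Finset (ℤ × ℕ) :=
  ((Finset.Icc (-(m : ℤ)) m) ×ˢ Finset.range D.p).filter
    (fun s => s.1 * D.p + s.2 * D.k ≤ m ∧ -s.1 * D.p + s.2 * D.k ≤ m)

/-- constant -/
def CD.cst (D : CD K) : ℕ := D.p * (D.k + 1)

/-- affine points -/
def CD.IsPt (D : CD K) (P : Kˣ × K) : Prop :=
  P.2 ^ D.p - P.2 = D.α * (P.1 : K) ^ D.k + D.β * ((P.1⁻¹ : Kˣ) : K) ^ D.k - D.e

end Pool.Weil46
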