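import Pool.Agent.LibWeil46.Def

set_option autoImplicit false

namespace Pool.Weil46

open Polynomial
open scoped Classical

/-- elements `x` with `Tr(a x + b / x) = t`, `N x = s` -/
noncomputable def TN (p : ℕ) [Fact p.Prime] (K : Type) [Field K] [Fintype K] [Algebra (ZMod p) K]
    (a b t s : ZMod p) : Set Kˣ :=
  {x : Kˣ | Algebra.trace (ZMod p) K (algebraMap (ZMod p) K a * (x : K)
      + algebraMap (ZMod p) K b * ((x⁻¹ : Kˣ) : K)) = t ∧
    Algebra.norm (ZMod p) (x : K) = s}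

/-- the exponential sum over the units of `K` -/
noncomputable def SK (p : ℕ) [Fact p.Prime] (K : Type) [Field K] [Fintype K] [Algebra (ZMod p) K]
    (χ : MulChar (ZMod p) ℂ) (ψ : AddChar (ZMod p) ℂ) (a b : ZMod p) : ℂ :=
  ∑ x : Kˣ, χ (Algebra.norm (ZMod p) (x : K)) * ψ (Algebra.trace (ZMod p) K
    (algebraMap (ZMod p) K a * (x : K) + algebraMap (ZMod p) K b * ((x⁻¹ : Kˣ) : K)))

/-- multiplicative weight of a monic polynomial -/
noncomputable def lam (p : ℕ) [Fact p.Prime] (χ : MulChar (ZMod p) ℂ) (ψ : AddChar (ZMod p) ℂ)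
    (a b : ZMod p) (f : (ZMod p)[X]) : ℂ :=
  χ ((-1) ^ f.natDegree * f.coeff 0) * ψ (-(a * f.nextCoeff) - b * (f.coeff 1 / f.coeff 0))

/-- monic polynomials of degree `n` -/
noncomputable def Mon (p : ℕ) [Fact p.Prime] (n : ℕ) : Finset (ZMod p)[X] :=
  (Finset.univ : Finset (Fin n → ZMod p)).image
    (fun v => X ^ n + ∑ i : Fin n, Polynomial.C (v i) * X ^ (i : ℕ))

/-- coefficient of the L-function -/
noncomputable def cc (p : ℕ) [Fact p.Prime] (χ : MulChar (ZMod p) ℂ) (ψ : AddChar (ZMod p) ℂ)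
    (a b : ZMod p) (n : ℕ) : ℂ := ∑ f ∈ Mon p n, lam p χ ψ a b f

/-- power sums -/
noncomputable def ss (p : ℕ) [Fact p.Prime] (χ : MulChar (ZMod p) ℂ) (ψ : AddChar (ZMod p) ℂ)
    (a b : ZMod p) (n : ℕ) : ℂ :=
  ∑ d ∈ n.divisors, ∑ g ∈ (Mon p d).filter (fun g => Irreducible g), (d : ℂ) * lam p χ ψ a b g ^ (n / d)

/-- index set of prime powers of degree `≤ n` : `((d, m), g)` with `g` irreducible monic of degree `d` -/
noncomputable def PP (p : ℕ) [Fact p.Prime] (n : ℕ) : Finset (Σ _ : ℕ × ℕ, (ZMod p)[X]) :=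
  (((Finset.Icc 1 n) ×ˢ (Finset.Icc 1 n)).filter (fun x => x.1 * x.2 ≤ n)).sigma
    (fun x => (Mon p x.1).filter (fun g => Irreducible g))

end Pool.Weil46
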