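import Pool.Agent.LibWeil46.Def2
set_option autoImplicit false

namespace Pool.Weil46

open Polynomial
open scoped Classical

variable {K : Type} [Field K]

theorem CD.degree_modBy_lt (D : CD K) (G : D.R) :
    (AdjoinRoot.modByMonicHom D.monic G).degree < (D.p : WithBot ℕ) := by
  obtain ⟨f, rfl⟩ := AdjoinRoot.mk_surjective G
  rw [AdjoinRoot.modByMonicHom_mk]
  have h := degree_modByMonic_lt f D.monic
  rwa [degree_eq_natDegree D.monic.ne_zero, D.natDegree_P] at h

/-- A1 -/
theorem CD.κ_of_le (D : CD K) (i : ℤ) (j : ℕ) (h : D.p ≤ j) (G : D.R) : D.κ i j G = 0 := by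
  unfold CD.κ
  rw [coeff_eq_zero_of_degree_lt]
  · rfl
  · refine (D.degree_modBy_lt G).trans_le ?_
    exact_mod_cast h

/-- A2 -/
theorem CD.κ_ext (D : CD K) (G H : D.R) (h : ∀ (i : ℤ) (j : ℕ), j < D.p → D.κ i j G = D.κ i j H) :
    G = H := by
  have h1 : AdjoinRoot.modByMonicHom D.monic G = AdjoinRoot.modByMonicHom D.monic H := by
    ext j i
    rcases lt_or_ge j D.p with hj | hj
    · exact h i j hj
    · exact (D.κ_of_le i j hj G).trans (D.κ_of_le i j hj H).symm
  have h2 := congrArg (AdjoinRoot.mk D.P) h1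
  rwa [AdjoinRoot.mk_leftInverse D.monic G, AdjoinRoot.mk_leftInverse D.monic H] at h2

/-- A3 -/
theorem CD.κ_mono (D : CD K) (i : ℤ) (j : ℕ) (i' : ℤ) (j' : ℕ) (h : j' < D.p) :
    D.κ i j (D.mono i' j') = if i = i' ∧ j = j' then 1 else 0 := by
  have h1 : D.mono i' j' = AdjoinRoot.mk D.P (C (LaurentPolynomial.T i') * X ^ j') := by
    unfold CD.mono
    rw [map_mul, map_pow, AdjoinRoot.mk_C, AdjoinRoot.mk_X]
  have h2 : (C (LaurentPolynomial.T i' : LaurentPolynomial K) * X ^ j') %ₘ D.P =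
      C (LaurentPolynomial.T i' : LaurentPolynomial K) * X ^ j' := by
    rw [modByMonic_eq_self_iff D.monic]
    refine (degree_C_mul_X_pow_le _ _).trans_lt ?_
    rw [degree_eq_natDegree D.monic.ne_zero, D.natDegree_P]
    exact_mod_cast h
  unfold CD.κ
  rw [h1, AdjoinRoot.modByMonicHom_mk, h2, coeff_C_mul, coeff_X_pow]
  by_cases hj : j = j'
  · rw [if_pos hj, mul_one, LaurentPolynomial.T_apply]
    by_cases hi : i = i'
    · rw [if_pos hi.symm, if_pos ⟨hi, hj⟩]
    · rw [if_neg (fun h => hi h.symm), if_neg (fun h => hi h.1)]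
  · rw [if_neg hj, mul_zero, if_neg (fun h => hj h.2)]
    rfl

end Pool.Weil46
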