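import Pool.Agent.LibWeil46.RA1
set_option autoImplicit false

namespace Pool.Weil46

open Polynomial
open scoped Classical

variable {K : Type} [Field K]



/-- A6 -/
theorem CD.mono_mul (D : CD K) (i i' : ℤ) (j j' : ℕ) :
    D.mono i j * D.mono i' j' = D.mono (i + i') (j + j') := by
  unfold CD.mono
  rw [LaurentPolynomial.T_add, map_mul, pow_add]
  ring

theorem CD.root_pow (D : CD K) : (AdjoinRoot.root D.P) ^ D.p =
    AdjoinRoot.root D.P + AdjoinRoot.of D.P D.f := by
  have h := AdjoinRoot.eval₂_root D.P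
  have h1 : D.P = X ^ D.p - X - C D.f := rfl
  have h2 : (X ^ D.p - X - C D.f : (LaurentPolynomial K)[X]).eval₂ (AdjoinRoot.of D.P)
      (AdjoinRoot.root D.P) = 0 := h
  rw [eval₂_sub, eval₂_sub, eval₂_X_pow, eval₂_X, eval₂_C, sub_sub, sub_eq_zero] at h2
  exact h2

theorem CD.smul_eq_of (D : CD K) (c : K) (G : D.R) :
    c • G = AdjoinRoot.of D.P (LaurentPolynomial.C c) * G := by
  rw [Algebra.smul_def]
  rfl

/-- A7: the relation of the curve -/
theorem CD.mono_red (D : CD K) (i : ℤ) (j : ℕ) :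
    D.mono i (j + D.p) = D.mono i (j + 1) + D.α • D.mono (i + D.k) j + D.β • D.mono (i - D.k) j
      - D.e • D.mono i j := by
  have hf : AdjoinRoot.of D.P D.f = AdjoinRoot.of D.P (LaurentPolynomial.C D.α) *
      AdjoinRoot.of D.P (LaurentPolynomial.T (D.k : ℤ)) +
      AdjoinRoot.of D.P (LaurentPolynomial.C D.β) *
        AdjoinRoot.of D.P (LaurentPolynomial.T (-(D.k : ℤ))) -
      AdjoinRoot.of D.P (LaurentPolynomial.C D.e) := by
    conv_lhs => rw [CD.f]
    rw [map_sub, map_add, map_mul, map_mul]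
  rw [D.smul_eq_of, D.smul_eq_of, D.smul_eq_of]
  unfold CD.mono
  rw [pow_add, D.root_pow, hf, sub_eq_add_neg i, LaurentPolynomial.T_add, LaurentPolynomial.T_add,
    map_mul, map_mul, pow_add, pow_one]
  ring

/-- A8 -/
theorem CD.F_le (D : CD K) (σ m n : ℤ) (h : m ≤ n) : D.F σ m ≤ D.F σ n := by
  intro G hG i j hij
  exact (hG i j hij).trans h

/-- A15 -/
theorem CD.hasDeg_one (D : CD K) : D.HasDeg (1 : D.R) 0 := by
  have h1 : (1 : D.R) = D.mono 0 0 := by
    unfold CD.mono
    rw [LaurentPolynomial.T_zero, map_one, pow_zero, one_mul]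
  rw [h1]
  constructor
  · intro i j hij
    rw [D.κ_mono i j 0 0 D.hp.pos] at hij
    have h2 : i = 0 ∧ j = 0 := by
      by_contra h3
      rw [if_neg h3] at hij
      exact hij rfl
    rw [h2.1, h2.2]
    simp
  · intro h
    have h3 := h 0 0 (by rw [D.κ_mono 0 0 0 0 D.hp.pos]; simp)
    simp at h3

end Pool.Weil46
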