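import Pool.Agent.LibWeil46.RA1
import Pool.Agent.LibWeil46.RA6
set_option autoImplicit false

namespace Pool.Weil46

open Polynomial
open scoped Classical

variable {K : Type} [Field K]



/-- A9: strong induction on `j`, using A3 for `j < p` and A7 for `j ≥ p` -/
theorem CD.mono_mem_F (D : CD K) (σ : ℤ) (hσ : σ = 1 ∨ σ = -1) (i : ℤ) (j : ℕ) :
    D.mono i j ∈ D.F σ (σ * i * D.p + j * D.k) := by
  induction j using Nat.strong_induction_on generalizing i with
  | _ j ih =>
    by_cases hj : j < D.p
    · intro i' j' h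
      rw [D.κ_mono i' j' i j hj] at h
      split_ifs at h with h'
      · obtain ⟨rfl, rfl⟩ := h'
        exact le_rfl
      · exact absurd rfl h
    · obtain ⟨n, rfl⟩ := Nat.exists_eq_add_of_le' (not_lt.1 hj)
      have hp2 : (2 : ℤ) ≤ D.p := by exact_mod_cast D.hp.two_le
      have hk : (1 : ℤ) ≤ D.k := by exact_mod_cast D.hk
      have hn : (0 : ℤ) ≤ n := Int.natCast_nonneg n
      have hpk : (0 : ℤ) ≤ (D.p : ℤ) * D.k := by positivity
      have hnp : n < n + D.p := Nat.lt_add_of_pos_right D.hp.pos
      have hnp1 : n + 1 < n + D.p := Nat.add_lt_add_left D.hp.one_lt n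
      rw [D.mono_red i n]
      refine Submodule.sub_mem _ (Submodule.add_mem _ (Submodule.add_mem _ ?_ ?_) ?_) ?_
      · refine D.F_le σ _ _ ?_ (ih (n + 1) hnp1 i)
        push_cast
        nlinarith
      · refine Submodule.smul_mem _ _ (D.F_le σ _ _ ?_ (ih n hnp (i + D.k)))
        push_cast
        rcases hσ with rfl | rfl <;> nlinarith
      · refine Submodule.smul_mem _ _ (D.F_le σ _ _ ?_ (ih n hnp (i - D.k)))
        push_cast
        rcases hσ with rfl | rfl <;> nlinarith
      · refine Submodule.smul_mem _ _ (D.F_le σ _ _ ?_ (ih n hnp i))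
        push_cast
        nlinarith

end Pool.Weil46
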