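import Pool.Agent.LibWeil46.RA4
import Pool.Agent.LibWeil46.RA6
import Pool.Agent.LibWeil46.RA9
set_option autoImplicit false

namespace Pool.Weil46

open Polynomial
open scoped Classical

variable {K : Type} [Field K]



/-- A10: from A5, A6, A9 -/
theorem CD.F_mul (D : CD K) (σ : ℤ) (hσ : σ = 1 ∨ σ = -1) (m n : ℤ) (G H : D.R)
    (hG : G ∈ D.F σ m) (hH : H ∈ D.F σ n) : G * H ∈ D.F σ (m + n) := by
  obtain ⟨S, hS1, hS2⟩ := D.κ_finite G
  obtain ⟨T, hT1, hT2⟩ := D.κ_finite H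
  have hGe := D.expand G S hS1 hS2
  have hHe := D.expand H T hT1 hT2
  have h1 : G * H = ∑ s ∈ S, ∑ t ∈ T,
      (D.κ s.1 s.2 G * D.κ t.1 t.2 H) • D.mono (s.1 + t.1) (s.2 + t.2) := by
    conv_lhs => rw [hGe, hHe]
    rw [Finset.sum_mul_sum]
    refine Finset.sum_congr rfl fun s _ => Finset.sum_congr rfl fun t _ => ?_
    rw [smul_mul_smul_comm, D.mono_mul]
  rw [h1]
  refine Submodule.sum_mem _ fun s _ => Submodule.sum_mem _ fun t _ => ?_
  by_cases h2 : D.κ s.1 s.2 G = 0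
  · rw [h2, zero_mul, zero_smul]
    exact Submodule.zero_mem _
  · by_cases h3 : D.κ t.1 t.2 H = 0
    · rw [h3, mul_zero, zero_smul]
      exact Submodule.zero_mem _
    · refine Submodule.smul_mem _ _ (D.F_le σ _ _ ?_ (D.mono_mem_F σ hσ (s.1 + t.1) (s.2 + t.2)))
      have h4 := hG s.1 s.2 h2
      have h5 := hH t.1 t.2 h3
      push_cast
      linarith

/-- A21 -/
theorem CD.L_mul (D : CD K) (m n : ℤ) (G H : D.R) (hG : G ∈ D.L m) (hH : H ∈ D.L n) :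
    G * H ∈ D.L (m + n) :=
  ⟨D.F_mul 1 (Or.inl rfl) m n G H hG.1 hH.1, D.F_mul (-1) (Or.inr rfl) m n G H hG.2 hH.2⟩

/-- A22 -/
theorem CD.L_pow (D : CD K) (m : ℤ) (G : D.R) (hG : G ∈ D.L m) (r : ℕ) :
    G ^ r ∈ D.L (r * m) := by
  induction r with
  | zero =>
    have h1 : G ^ 0 = D.mono 0 0 := by
      rw [pow_zero, CD.mono, pow_zero, mul_one, LaurentPolynomial.T_zero, map_one]
    have h2 : ∀ σ : ℤ, (σ = 1 ∨ σ = -1) → G ^ 0 ∈ D.F σ (((0 : ℕ) : ℤ) * m) := by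
      intro σ hσ
      rw [h1]
      refine D.F_le σ _ _ ?_ (D.mono_mem_F σ hσ 0 0)
      simp
    exact ⟨h2 1 (Or.inl rfl), h2 (-1) (Or.inr rfl)⟩
  | succ r ih =>
    have h1 := D.L_mul (r * m) m (G ^ r) G ih hG
    have h2 : ((r + 1 : ℕ) : ℤ) * m = r * m + m := by push_cast; ring
    rw [pow_succ, h2]
    exact h1

end Pool.Weil46
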