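import Pool.Agent.LibWeil46.RA6
import Pool.Agent.LibWeil46.RA9
import Pool.Agent.LibWeil46.RA1
set_option autoImplicit false

namespace Pool.Weil46

open Polynomial
open scoped Classical

variable {K : Type} [Field K]



/-- A11: weights of distinct monomials are distinct -/
theorem CD.weight_inj (D : CD K) (i i' : ℤ) (j j' : ℕ) (hj : j < D.p) (hj' : j' < D.p)
    (h : i * D.p + j * D.k = i' * D.p + j' * D.k) : i = i' ∧ j = j' := by
  have hp0 : (0 : ℤ) < D.p := by exact_mod_cast D.hp.pos
  have h1 : ((j : ℤ) - j') * D.k = (i' - i) * D.p := by linarith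
  have h2 : (D.p : ℤ) ∣ ((j : ℤ) - j') * D.k := ⟨i' - i, by rw [h1]; ring⟩
  have h3 : IsCoprime (D.p : ℤ) (D.k : ℤ) := by
    rw [Nat.isCoprime_iff_coprime]
    exact D.hcop.symm
  have h4 : (D.p : ℤ) ∣ ((j : ℤ) - j') := h3.dvd_of_dvd_mul_right h2
  have h5 : (j : ℤ) - j' = 0 := by
    apply Int.eq_zero_of_abs_lt_dvd h4
    rw [abs_lt]
    constructor <;> omega
  have h6 : j = j' := by omega
  refine ⟨?_, h6⟩
  rw [h5, zero_mul] at h1
  have h7 : i' - i = 0 := by
    rcases mul_eq_zero.1 h1.symm with h8 | h8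
    · exact h8
    · exact absurd h8 hp0.ne'
  omega

/-- A12: exact degree of every monomial -/
theorem CD.hasDeg_mono (D : CD K) (i : ℤ) (j : ℕ) : D.HasDeg (D.mono i j) (i * D.p + j * D.k) := by
  have hp2 : (2 : ℤ) ≤ D.p := by exact_mod_cast D.hp.two_le
  have hk1 : (1 : ℤ) ≤ D.k := by exact_mod_cast D.hk
  have hpk : (D.k : ℤ) + 1 ≤ D.p * D.k := by nlinarith
  refine ⟨?_, ?_⟩
  · have := D.mono_mem_F 1 (Or.inl rfl) i j
    rwa [one_mul] at this
  · induction j using Nat.strong_induction_on generalizing i with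
    | _ j ih =>
      rcases lt_or_ge j D.p with hj | hj
      · intro hmem
        have h1 := hmem i j (by rw [D.κ_mono i j i j hj]; simp)
        linarith
      · obtain ⟨j', rfl⟩ : ∃ j', j = j' + D.p := ⟨j - D.p, by omega⟩
        intro hmem
        have hlt : j' < j' + D.p := by have := D.hp.pos; omega
        refine ih j' hlt (i + D.k) ?_
        have e1 : ((i + D.k : ℤ)) * D.p + (j' : ℤ) * D.k - 1 = i * D.p + ((j' + D.p : ℕ) : ℤ) * D.k - 1 := by
          push_cast; ring
        rw [e1]
        set n : ℤ := i * D.p + ((j' + D.p : ℕ) : ℤ) * D.k - 1 with hn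
        have hn' : n = i * D.p + (j' : ℤ) * D.k + D.p * D.k - 1 := by rw [hn]; push_cast; ring
        have m1 : D.mono i (j' + 1) ∈ D.F 1 n := by
          refine D.F_le 1 _ _ ?_ (D.mono_mem_F 1 (Or.inl rfl) i (j' + 1))
          push_cast
          rw [hn']
          linarith
        have m2 : D.mono (i - D.k) j' ∈ D.F 1 n := by
          refine D.F_le 1 _ _ ?_ (D.mono_mem_F 1 (Or.inl rfl) (i - D.k) j')
          rw [hn']
          have : (0 : ℤ) ≤ D.k * D.p := by positivity
          nlinarith
        have m3 : D.mono i j' ∈ D.F 1 n := by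
          refine D.F_le 1 _ _ ?_ (D.mono_mem_F 1 (Or.inl rfl) i j')
          rw [hn']
          linarith
        have h1 : D.α • D.mono (i + D.k) j' = D.mono i (j' + D.p) - D.mono i (j' + 1)
            - D.β • D.mono (i - D.k) j' + D.e • D.mono i j' := by
          rw [D.mono_red i j']; abel
        have h2 : D.α • D.mono (i + D.k) j' ∈ D.F 1 n := by
          rw [h1]
          exact Submodule.add_mem _ (Submodule.sub_mem _ (Submodule.sub_mem _ hmem m1)
            (Submodule.smul_mem _ _ m2)) (Submodule.smul_mem _ _ m3)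
        exact (Submodule.smul_mem_iff _ D.hα).1 h2

end Pool.Weil46
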