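import Pool.Agent.LibWeil46.RA4
import Pool.Agent.LibWeil46.RA11
import Pool.Agent.LibWeil46.RA1
set_option autoImplicit false

namespace Pool.Weil46

open Polynomial
open scoped Classical

variable {K : Type} [Field K]

theorem CD.κ_neg' (D : CD K) (i : ℤ) (j : ℕ) (G : D.R) : D.κ i j (-G) = - D.κ i j G := by
  have := D.κ_smul i j (-1) G
  rw [neg_one_smul, neg_one_mul] at this
  exact this

theorem CD.κ_sub' (D : CD K) (i : ℤ) (j : ℕ) (G H : D.R) :
    D.κ i j (G - H) = D.κ i j G - D.κ i j H := by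
  rw [sub_eq_add_neg, D.κ_add, D.κ_neg', sub_eq_add_neg]

/-- A13: leading monomial, from A11, A5, A3 -/
theorem CD.lead (D : CD K) (G : D.R) (n : ℤ) (h : D.HasDeg G n) :
    ∃ (i : ℤ) (j : ℕ) (c : K), j < D.p ∧ i * D.p + j * D.k = n ∧ c ≠ 0 ∧
      G - c • D.mono i j ∈ D.F 1 (n - 1) := by
  obtain ⟨h1, h2⟩ := h
  rw [D.mem_F] at h1 h2
  push Not at h2
  obtain ⟨i, j, hne, hw⟩ := h2
  have hj : j < D.p := by
    by_contra hc
    exact hne (D.κ_of_le i j (not_lt.mp hc) G)
  have hle := h1 i j hne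
  rw [one_mul] at hw hle
  have hn : i * D.p + j * D.k = n := by omega
  refine ⟨i, j, D.κ i j G, hj, hn, hne, ?_⟩
  rw [D.mem_F]
  intro i' j' h'
  rw [D.κ_sub', D.κ_smul, D.κ_mono i' j' i j hj] at h'
  by_cases hij : i' = i ∧ j' = j
  · obtain ⟨rfl, rfl⟩ := hij
    simp at h'
  · rw [if_neg hij, mul_zero, sub_zero] at h'
    have hj' : j' < D.p := by
      by_contra hc
      exact h' (D.κ_of_le i' j' (not_lt.mp hc) G)
    have hle' := h1 i' j' h'
    rw [one_mul] at hle' ⊢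
    have hne' : i' * D.p + j' * D.k ≠ n := by
      intro hE
      exact hij (D.weight_inj i' i j' j hj' hj (hE.trans hn.symm))
    omega

end Pool.Weil46
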