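import Pool.Agent.LibWeil46.RA13
import Pool.Agent.LibWeil46.RA10
import Pool.Agent.LibWeil46.RA11
import Pool.Agent.LibWeil46.RA6
set_option autoImplicit false

namespace Pool.Weil46

open Polynomial
open scoped Classical

variable {K : Type} [Field K]



/-- A14: degrees are additive (A13, A12, A10, A6) -/
theorem CD.hasDeg_mul (D : CD K) (G H : D.R) (m n : ℤ) (hG : D.HasDeg G m) (hH : D.HasDeg H n) :
    D.HasDeg (G * H) (m + n) := by
  refine ⟨D.F_mul 1 (Or.inl rfl) m n G H hG.1 hH.1, ?_⟩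
  intro hGH
  obtain ⟨i, j, c, hj, hw, hc, hG'⟩ := D.lead G m hG
  obtain ⟨i', j', d, hj', hw', hd, hH'⟩ := D.lead H n hH
  have e1 : (G - c • D.mono i j) * H ∈ D.F 1 (m + n - 1) := by
    have := D.F_mul 1 (Or.inl rfl) (m - 1) n _ H hG' hH.1
    have h2 : m - 1 + n = m + n - 1 := by ring
    rwa [h2] at this
  have e2 : D.mono i j * (H - d • D.mono i' j') ∈ D.F 1 (m + n - 1) := by
    have h0 : D.mono i j ∈ D.F 1 m := by
      have := (D.hasDeg_mono i j).1
      rwa [hw] at this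
    have := D.F_mul 1 (Or.inl rfl) m (n - 1) _ _ h0 hH'
    have h2 : m + (n - 1) = m + n - 1 := by ring
    rwa [h2] at this
  have e3 : (c * d) • D.mono (i + i') (j + j') ∈ D.F 1 (m + n - 1) := by
    have h3 : (c * d) • D.mono (i + i') (j + j') = G * H - (G - c • D.mono i j) * H
        - c • (D.mono i j * (H - d • D.mono i' j')) := by
      rw [← D.mono_mul, sub_mul, mul_sub, smul_sub, mul_smul_comm, smul_mul_assoc, mul_smul]
      abel
    rw [h3]
    exact Submodule.sub_mem _ (Submodule.sub_mem _ hGH e1) (Submodule.smul_mem _ _ e2)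
  have e4 : D.mono (i + i') (j + j') ∈ D.F 1 (m + n - 1) := by
    have h4 := Submodule.smul_mem _ (c * d)⁻¹ e3
    rwa [smul_smul, inv_mul_cancel₀ (mul_ne_zero hc hd), one_smul] at h4
  have h5 := (D.hasDeg_mono (i + i') (j + j')).2
  apply h5
  have h6 : (i + i') * (D.p : ℤ) + ((j + j' : ℕ) : ℤ) * D.k - 1 = m + n - 1 := by
    rw [← hw, ← hw']
    push_cast
    ring
  rw [h6]
  exact e4

/-- A16 -/
theorem CD.hasDeg_pow (D : CD K) (G : D.R) (m : ℤ) (hG : D.HasDeg G m) (r : ℕ) :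
    D.HasDeg (G ^ r) (r * m) := by
  induction r with
  | zero =>
    simpa using D.hasDeg_one
  | succ r ih =>
    have h := D.hasDeg_mul _ _ _ _ ih hG
    have h2 : (r : ℤ) * m + m = ((r + 1 : ℕ) : ℤ) * m := by
      push_cast
      ring
    rw [pow_succ]
    rwa [h2] at h

/-- A18 -/
theorem CD.hasDeg_ne_zero (D : CD K) (G : D.R) (n : ℤ) (h : D.HasDeg G n) : G ≠ 0 := by
  intro h0
  apply h.2
  rw [h0]
  exact Submodule.zero_mem _

end Pool.Weil46
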