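import Pool.Agent.LibWeil46.RA4
import Pool.Agent.LibWeil46.RA14
set_option autoImplicit false

namespace Pool.Weil46

open Polynomial
open scoped Classical

variable {K : Type} [Field K]



/-- A17 -/
theorem CD.exists_hasDeg (D : CD K) (G : D.R) (h : G ≠ 0) : ∃ n : ℤ, D.HasDeg G n := by
  obtain ⟨S, hS1, hS2⟩ := D.κ_finite G
  have hne : (S.filter (fun s => D.κ s.1 s.2 G ≠ 0)).Nonempty := by
    by_contra hcon
    rw [Finset.not_nonempty_iff_eq_empty] at hcon
    apply h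
    apply D.κ_ext
    intro i j _
    rw [D.κ_zero]
    by_contra h0
    have hm : ((i, j) : ℤ × ℕ) ∈ S.filter (fun s => D.κ s.1 s.2 G ≠ 0) :=
      Finset.mem_filter.2 ⟨hS2 i j h0, h0⟩
    rw [hcon] at hm
    simp at hm
  obtain ⟨s0, hs0, hmax⟩ := Finset.exists_max_image _
    (fun s : ℤ × ℕ => s.1 * (D.p : ℤ) + s.2 * D.k) hne
  refine ⟨s0.1 * (D.p : ℤ) + s0.2 * D.k, ?_, ?_⟩
  · intro i j hij
    have := hmax (i, j) (Finset.mem_filter.2 ⟨hS2 i j hij, hij⟩)
    simpa using this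
  · intro hcon
    have := hcon s0.1 s0.2 (Finset.mem_filter.1 hs0).2
    rw [one_mul] at this
    omega

/-- A19: the ring is a domain -/
theorem CD.mul_eq_zero' (D : CD K) (G H : D.R) (h : G * H = 0) : G = 0 ∨ H = 0 := by
  by_contra hcon
  push Not at hcon
  obtain ⟨m, hm⟩ := D.exists_hasDeg G hcon.1
  obtain ⟨n, hn⟩ := D.exists_hasDeg H hcon.2
  exact D.hasDeg_ne_zero _ _ (D.hasDeg_mul G H m n hm hn) h

/-- A20: degrees of nonzero elements of `L l` lie in `[-l, l]`: every coordinate `(i,j)` of `G ∈ L l`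
has `-i p + j k ≤ l`, so `i p + j k ≥ -l`. -/
theorem CD.L_deg (D : CD K) (l : ℤ) (G : D.R) (hG : G ∈ D.L l) (n : ℤ) (h : D.HasDeg G n) :
    -l ≤ n ∧ n ≤ l := by
  have hG1 : G ∈ D.F 1 l := (Submodule.mem_inf.1 hG).1
  have hG2 : G ∈ D.F (-1) l := (Submodule.mem_inf.1 hG).2
  constructor
  · by_contra hlt
    apply h.2
    intro i j hij
    exfalso
    have h1 := h.1 i j hij
    have h2 := hG2 i j hij
    have h3 : (0 : ℤ) ≤ (j : ℤ) * D.k := by positivity
    have h4 : (1 : ℤ) * i * D.p = i * D.p := by ring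
    have h5 : (-1 : ℤ) * i * D.p = -(i * D.p) := by ring
    rw [h4] at h1
    rw [h5] at h2
    omega
  · by_contra hlt
    apply h.2
    exact D.F_le 1 l (n - 1) (by omega) hG1

end Pool.Weil46
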