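import Pool.Agent.LibWeil46.RA4
import Pool.Agent.LibWeil46.RA1
set_option autoImplicit false

namespace Pool.Weil46

open Polynomial
open scoped Classical

variable {K : Type} [Field K]



theorem CD.mem_L (D : CD K) (n : ℤ) (G : D.R) :
    G ∈ D.L n ↔ ∀ (i : ℤ) (j : ℕ), D.κ i j G ≠ 0 →
      i * D.p + j * D.k ≤ n ∧ -i * D.p + j * D.k ≤ n := by
  unfold CD.L
  rw [Submodule.mem_inf, D.mem_F, D.mem_F]
  constructor
  · rintro ⟨h1, h2⟩ i j hij
    have h3 := h1 i j hij
    have h4 := h2 i j hij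
    constructor <;> linarith
  · intro h
    constructor
    · intro i j hij
      have := (h i j hij).1
      linarith
    · intro i j hij
      have := (h i j hij).2
      linarith

theorem CD.L_exhaust_one (D : CD K) (G : D.R) : ∃ n0 : ℕ, ∀ n : ℕ, n0 ≤ n → G ∈ D.L n := by
  obtain ⟨S, -, hS⟩ := D.κ_finite G
  refine ⟨∑ s ∈ S, (s.1.natAbs * D.p + s.2 * D.k), fun n hn => ?_⟩
  rw [D.mem_L]
  intro i j hij
  have h1 : i.natAbs * D.p + j * D.k ≤ n :=
    (Finset.single_le_sum (f := fun s : ℤ × ℕ => s.1.natAbs * D.p + s.2 * D.k)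
      (fun _ _ => Nat.zero_le _) (hS i j hij)).trans hn
  have h2 : ((i.natAbs : ℤ)) * D.p + j * D.k ≤ n := by exact_mod_cast h1
  have hp : (0 : ℤ) ≤ D.p := Int.natCast_nonneg _
  have h3 : i ≤ i.natAbs := Int.le_natAbs
  have h4 : -i ≤ i.natAbs := by
    have := Int.le_natAbs (a := -i)
    rwa [Int.natAbs_neg] at this
  constructor
  · have := mul_le_mul_of_nonneg_right h3 hp
    linarith
  · have := mul_le_mul_of_nonneg_right h4 hp
    linarith

/-- A23 -/
theorem CD.L_exhaust (D : CD K) (S : Finset D.R) : ∃ n0 : ℕ, ∀ n : ℕ, n0 ≤ n → ∀ G ∈ S, G ∈ D.L n := by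
  induction S using Finset.induction_on with
  | empty => exact ⟨0, fun n _ G hG => absurd hG (Finset.notMem_empty _)⟩
  | insert G S _ ih =>
    obtain ⟨n0, h0⟩ := ih
    obtain ⟨n1, h1⟩ := D.L_exhaust_one G
    refine ⟨max n0 n1, fun n hn H hH => ?_⟩
    rcases Finset.mem_insert.1 hH with rfl | hH
    · exact h1 n ((le_max_right _ _).trans hn)
    · exact h0 n ((le_max_left _ _).trans hn) H hH

/-- A24 -/
theorem CD.mono_mem_L (D : CD K) (m : ℕ) (s : ℤ × ℕ) (hs : s ∈ D.I m) :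
    D.mono s.1 s.2 ∈ D.L m := by
  unfold CD.I at hs
  rw [Finset.mem_filter, Finset.mem_product] at hs
  obtain ⟨⟨_, h1⟩, h2, h3⟩ := hs
  rw [D.mem_L]
  intro i j hij
  rw [D.κ_mono i j s.1 s.2 (Finset.mem_range.1 h1)] at hij
  have h4 : i = s.1 ∧ j = s.2 := by
    by_contra h5
    rw [if_neg h5] at hij
    exact hij rfl
  rw [h4.1, h4.2]
  exact ⟨h2, h3⟩

end Pool.Weil46
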