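import Pool.Agent.LibWeil46.RA1
set_option autoImplicit false

namespace Pool.Weil46

open Polynomial
open scoped Classical

variable {K : Type} [Field K]



/-- A4: finitely many coordinates -/
theorem CD.κ_finite (D : CD K) (G : D.R) :
    ∃ S : Finset (ℤ × ℕ), (∀ s ∈ S, s.2 < D.p) ∧ ∀ (i : ℤ) (j : ℕ), D.κ i j G ≠ 0 → (i, j) ∈ S := by
  refine ⟨(Finset.range D.p).biUnion (fun j =>
    (((AdjoinRoot.modByMonicHom D.monic G).coeff j).coeff.support).image (fun i => (i, j))), ?_, ?_⟩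
  · intro s hs
    rw [Finset.mem_biUnion] at hs
    obtain ⟨j, hj, hs⟩ := hs
    rw [Finset.mem_image] at hs
    obtain ⟨i, _, rfl⟩ := hs
    exact Finset.mem_range.1 hj
  · intro i j h
    rw [Finset.mem_biUnion]
    refine ⟨j, ?_, ?_⟩
    · rw [Finset.mem_range]
      by_contra hj
      exact h (D.κ_of_le i j (not_lt.1 hj) G)
    · rw [Finset.mem_image]
      exact ⟨i, Finsupp.mem_support_iff.2 h, rfl⟩

/-- `κ` is additive. -/
noncomputable def CD.κh (D : CD K) (i : ℤ) (j : ℕ) : D.R →+ K where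
  toFun := D.κ i j
  map_zero' := D.κ_zero i j
  map_add' := D.κ_add i j

theorem CD.κ_sum (D : CD K) (i : ℤ) (j : ℕ) {ι : Type*} (S : Finset ι) (f : ι → D.R) :
    D.κ i j (∑ s ∈ S, f s) = ∑ s ∈ S, D.κ i j (f s) := map_sum (D.κh i j) f S

/-- A5: expansion in monomials -/
theorem CD.expand (D : CD K) (G : D.R) (S : Finset (ℤ × ℕ)) (h1 : ∀ s ∈ S, s.2 < D.p)
    (h2 : ∀ (i : ℤ) (j : ℕ), D.κ i j G ≠ 0 → (i, j) ∈ S) :
    G = ∑ s ∈ S, D.κ s.1 s.2 G • D.mono s.1 s.2 := by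
  refine D.κ_ext _ _ (fun i j hj => ?_)
  rw [D.κ_sum]
  have h : ∀ s ∈ S, D.κ i j (D.κ s.1 s.2 G • D.mono s.1 s.2) =
      if s = (i, j) then D.κ i j G else 0 := by
    intro s hs
    rw [D.κ_smul, D.κ_mono i j s.1 s.2 (h1 s hs)]
    by_cases he : s = (i, j)
    · subst he
      simp
    · rw [if_neg he, if_neg, mul_zero]
      rintro ⟨rfl, rfl⟩
      exact he rfl
  rw [Finset.sum_congr rfl h, Finset.sum_ite_eq']
  by_cases hm : (i, j) ∈ S
  · rw [if_pos hm]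
  · rw [if_neg hm]
    by_contra hne
    exact hm (h2 i j hne)

end Pool.Weil46
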