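import Pool.Agent.LibWeil46.RA23
import Pool.Agent.LibWeil46.RA1
import Pool.Agent.LibWeil46.RA4
set_option autoImplicit false

namespace Pool.Weil46

open Polynomial
open scoped Classical

variable {K : Type} [Field K]



/-- coordinates of a linear combination of monomials -/
theorem CD.κ_sum_mono (D : CD K) (i : ℤ) (j : ℕ) (S : Finset (ℤ × ℕ)) (hS : ∀ s ∈ S, s.2 < D.p)
    (c : ℤ × ℕ → K) :
    D.κ i j (∑ s ∈ S, c s • D.mono s.1 s.2) = if (i, j) ∈ S then c (i, j) else 0 := by
  induction S using Finset.induction_on with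
  | empty => rw [Finset.sum_empty, D.κ_zero, if_neg (Finset.notMem_empty _)]
  | insert a S ha ih =>
    rw [Finset.sum_insert ha, D.κ_add, D.κ_smul,
      ih (fun s hs => hS s (Finset.mem_insert_of_mem hs)),
      D.κ_mono i j a.1 a.2 (hS a (Finset.mem_insert_self a S))]
    by_cases h : (i, j) = a
    · subst h
      rw [if_pos ⟨rfl, rfl⟩, if_neg ha, if_pos (Finset.mem_insert_self _ S), mul_one, add_zero]
    · have h1 : ¬ (i = a.1 ∧ j = a.2) := fun h2 => h (Prod.ext h2.1 h2.2)
      rw [if_neg h1, mul_zero, zero_add]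
      by_cases h3 : (i, j) ∈ S
      · rw [if_pos h3, if_pos (Finset.mem_insert_of_mem h3)]
      · have h4 : (i, j) ∉ insert a S := by
          rw [Finset.mem_insert]
          rintro (h5 | h5)
          · exact h h5
          · exact h3 h5
        rw [if_neg h3, if_neg h4]

/-- coordinates of elements of `L m` are in `I m` -/
theorem CD.mem_I_of_κ (D : CD K) (m : ℕ) (G : D.R) (hG : G ∈ D.L m) (i : ℤ) (j : ℕ)
    (h : D.κ i j G ≠ 0) : (i, j) ∈ D.I m := by
  have h1 : (1 : ℤ) * i * D.p + j * D.k ≤ m := hG.1 i j h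
  have h2 : (-1 : ℤ) * i * D.p + j * D.k ≤ m := hG.2 i j h
  have hj : j < D.p := by
    by_contra hj
    exact h (D.κ_of_le i j (not_lt.1 hj) G)
  have hp : (1 : ℤ) ≤ D.p := by exact_mod_cast D.hp.one_lt.le
  have hjk : (0 : ℤ) ≤ j * D.k := by positivity
  have h3 : i ≤ m := by
    by_contra h4
    push Not at h4
    have h5 : (0 : ℤ) ≤ m := by positivity
    have h6 : i * 1 ≤ i * D.p := mul_le_mul_of_nonneg_left hp (by omega)
    rw [one_mul] at h1
    rw [mul_one] at h6
    omega
  have h4 : -(m : ℤ) ≤ i := by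
    by_contra h4
    push Not at h4
    have h5 : (0 : ℤ) ≤ m := by positivity
    have h6 : (-i) * 1 ≤ (-i) * D.p := mul_le_mul_of_nonneg_left hp (by omega)
    rw [mul_one] at h6
    have h7 : (-1 : ℤ) * i * D.p = -i * D.p := by ring
    rw [h7] at h2
    omega
  unfold CD.I
  rw [Finset.mem_filter, Finset.mem_product, Finset.mem_Icc, Finset.mem_range]
  refine ⟨⟨⟨h4, h3⟩, hj⟩, ?_, ?_⟩
  · change i * D.p + j * D.k ≤ m
    rwa [one_mul] at h1
  · change -i * D.p + j * D.k ≤ m
    have h7 : (-1 : ℤ) * i * D.p = -i * D.p := by ring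
    rwa [h7] at h2

theorem CD.snd_lt_of_mem_I (D : CD K) (m : ℕ) (s : ℤ × ℕ) (hs : s ∈ D.I m) : s.2 < D.p := by
  unfold CD.I at hs
  rw [Finset.mem_filter, Finset.mem_product, Finset.mem_range] at hs
  exact hs.1.2

/-- the coordinates as a bijection -/
theorem CD.coords_bijective (D : CD K) (m : ℕ) :
    Function.Bijective (fun (G : D.L m) (s : D.I m) => D.κ s.1.1 s.1.2 G.1) := by
  constructor
  · intro G H hGH
    refine Subtype.ext (D.κ_ext G.1 H.1 (fun i j _ => ?_))
    by_cases h : (i, j) ∈ D.I m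
    · exact congrFun hGH ⟨(i, j), h⟩
    · have h1 : D.κ i j G.1 = 0 := by
        by_contra h2
        exact h (D.mem_I_of_κ m G.1 G.2 i j h2)
      have h2 : D.κ i j H.1 = 0 := by
        by_contra h2
        exact h (D.mem_I_of_κ m H.1 H.2 i j h2)
      rw [h1, h2]
  · intro v
    have hmem : (∑ s ∈ D.I m, (if h : s ∈ D.I m then v ⟨s, h⟩ else 0) • D.mono s.1 s.2) ∈ D.L m :=
      Submodule.sum_mem _ (fun s hs => Submodule.smul_mem _ _ (D.mono_mem_L m s hs))
    refine ⟨⟨_, hmem⟩, ?_⟩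
    funext s
    change D.κ s.1.1 s.1.2
      (∑ s ∈ D.I m, (if h : s ∈ D.I m then v ⟨s, h⟩ else 0) • D.mono s.1 s.2) = v s
    rw [D.κ_sum_mono s.1.1 s.1.2 (D.I m) (fun s hs => D.snd_lt_of_mem_I m s hs)
      (fun s => if h : s ∈ D.I m then v ⟨s, h⟩ else 0), if_pos s.2]
    exact dif_pos s.2

/-- A25: coordinates of elements of `L m` are in `I m`, so `L m` is in bijection with functions
`I m → K` -/
theorem CD.card_L (D : CD K) [Fintype K] (m : ℕ) :
    Nat.card (D.L m) = (Nat.card K) ^ (D.I m).card := by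
  rw [Nat.card_eq_of_bijective _ (D.coords_bijective m), Nat.card_fun]
  congr 1
  rw [Nat.card_eq_fintype_card, Fintype.card_coe]

end Pool.Weil46
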