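import Pool.Agent.LibWeil46.Def2
/-! Rows A26, A27. -/

set_option autoImplicit false

namespace Pool.Weil46

open Polynomial
open scoped Classical

variable {K : Type} [Field K]

theorem CD.card_I_eq (D : CD K) (m : ℕ) : (D.I m).card = ∑ j ∈ Finset.range D.p,
    ((Finset.Icc (-(m : ℤ)) m).filter
      (fun i : ℤ => i * D.p + j * D.k ≤ m ∧ -i * D.p + j * D.k ≤ m)).card := by
  unfold CD.I
  rw [Finset.card_filter, Finset.sum_product_right]
  refine Finset.sum_congr rfl fun j _ => ?_
  rw [Finset.card_filter]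

/-- A26: counting lattice points, upper bound: for each `j < p` at most `2 m / p + 1` values of `i`. -/
theorem CD.I_card_le (D : CD K) (m : ℕ) : (D.I m).card ≤ 2 * m + D.p := by
  have hp : 0 < D.p := D.hp.pos
  rw [D.card_I_eq]
  have h1 : ∀ j ∈ Finset.range D.p, ((Finset.Icc (-(m : ℤ)) m).filter
      (fun i : ℤ => i * D.p + j * D.k ≤ m ∧ -i * D.p + j * D.k ≤ m)).card ≤ 2 * (m / D.p) + 1 := by
    intro j _
    have hsub : ((Finset.Icc (-(m : ℤ)) m).filter
        (fun i : ℤ => i * D.p + j * D.k ≤ m ∧ -i * D.p + j * D.k ≤ m)) ⊆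
        Finset.Icc (-((m / D.p : ℕ) : ℤ)) ((m / D.p : ℕ) : ℤ) := by
      intro i hi
      rw [Finset.mem_filter] at hi
      obtain ⟨_, h2, h3⟩ := hi
      have hjk : (0 : ℤ) ≤ (j : ℤ) * (D.k : ℤ) := by positivity
      have hlt : (m : ℤ) < (((m / D.p : ℕ) : ℤ) + 1) * (D.p : ℤ) := by
        have h4 : m < (m / D.p + 1) * D.p := by
          have h5 := Nat.div_add_mod m D.p
          have h6 := Nat.mod_lt m hp
          calc m = D.p * (m / D.p) + m % D.p := h5.symm
            _ < D.p * (m / D.p) + D.p := by omega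
            _ = (m / D.p + 1) * D.p := by ring
        exact_mod_cast h4
      have hpz : (0 : ℤ) < (D.p : ℤ) := by exact_mod_cast hp
      rw [Finset.mem_Icc]
      constructor
      · by_contra hcon
        have h7 : ((m / D.p : ℕ) : ℤ) + 1 ≤ -i := by omega
        have h8 := mul_le_mul_of_nonneg_right h7 hpz.le
        linarith
      · by_contra hcon
        have h7 : ((m / D.p : ℕ) : ℤ) + 1 ≤ i := by omega
        have h8 := mul_le_mul_of_nonneg_right h7 hpz.le
        linarith
    have h2 := Finset.card_le_card hsub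
    rw [Int.card_Icc] at h2
    omega
  calc ∑ j ∈ Finset.range D.p, ((Finset.Icc (-(m : ℤ)) m).filter
      (fun i : ℤ => i * D.p + j * D.k ≤ m ∧ -i * D.p + j * D.k ≤ m)).card
      ≤ ∑ j ∈ Finset.range D.p, (2 * (m / D.p) + 1) := Finset.sum_le_sum h1
    _ = 2 * (D.p * (m / D.p)) + D.p := by
        rw [Finset.sum_const, Finset.card_range, smul_eq_mul]; ring
    _ ≤ 2 * m + D.p := by
        have := Nat.mul_div_le m D.p
        omega

/-- A27: lower bound: for each `j` all `|i| ≤ (m - j k) / p` are allowed -/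
theorem CD.le_I_card (D : CD K) (m : ℕ) : 2 * m ≤ (D.I m).card + D.cst := by
  have hp : 0 < D.p := D.hp.pos
  have hpz : (0 : ℤ) < (D.p : ℤ) := by exact_mod_cast hp
  rw [D.card_I_eq]
  set cnt : ℕ → ℕ := fun j => ((Finset.Icc (-(m : ℤ)) m).filter
      (fun i : ℤ => i * D.p + j * D.k ≤ m ∧ -i * D.p + j * D.k ≤ m)).card with hcnt
  have h1 : ∀ j ∈ Finset.range D.p,
      2 * (m : ℤ) - 2 * (j : ℤ) * D.k - D.p ≤ (D.p : ℤ) * (cnt j : ℤ) := by
    intro j _
    by_cases hjk : j * D.k ≤ m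
    · set t : ℕ := (m - j * D.k) / D.p with ht
      have ht1 : D.p * t ≤ m - j * D.k := Nat.mul_div_le _ _
      have ht2 : m - j * D.k < D.p * t + D.p := by
        have h5 := Nat.div_add_mod (m - j * D.k) D.p
        have h6 := Nat.mod_lt (m - j * D.k) hp
        rw [← ht] at h5
        omega
      have htm : t ≤ m := by
        have : t ≤ D.p * t := Nat.le_mul_of_pos_left t hp
        omega
      have hsub : Finset.Icc (-(t : ℤ)) (t : ℤ) ⊆ ((Finset.Icc (-(m : ℤ)) m).filter
          (fun i : ℤ => i * D.p + j * D.k ≤ m ∧ -i * D.p + j * D.k ≤ m)) := by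
        intro i hi
        rw [Finset.mem_Icc] at hi
        rw [Finset.mem_filter, Finset.mem_Icc]
        have ht1' : (D.p : ℤ) * t + (j : ℤ) * D.k ≤ m := by
          have : D.p * t + j * D.k ≤ m := by omega
          exact_mod_cast this
        have h8 := mul_le_mul_of_nonneg_right hi.2 hpz.le
        have h9 : -i ≤ t := by omega
        have h10 := mul_le_mul_of_nonneg_right h9 hpz.le
        refine ⟨⟨by omega, by omega⟩, by linarith, by linarith⟩
      have h2 := Finset.card_le_card hsub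
      rw [Int.card_Icc] at h2
      have h3 : 2 * t + 1 ≤ cnt j := by
        simp only [hcnt]
        omega
      have h4 : (m : ℤ) - (j : ℤ) * D.k < D.p * t + D.p := by
        have h5 : m < D.p * t + D.p + j * D.k := by omega
        have h6 : (m : ℤ) < D.p * t + D.p + j * D.k := by exact_mod_cast h5
        linarith
      have h5 : (D.p : ℤ) * (2 * t + 1) ≤ D.p * (cnt j : ℤ) := by
        apply mul_le_mul_of_nonneg_left _ hpz.le
        exact_mod_cast h3
      nlinarith
    · have h2 : (m : ℤ) < (j : ℤ) * D.k := by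
        have := not_le.1 hjk
        exact_mod_cast this
      have h3 : (0 : ℤ) ≤ (D.p : ℤ) * (cnt j : ℤ) := by positivity
      linarith
  have h2 : ∑ j ∈ Finset.range D.p, (2 * (m : ℤ) - 2 * (j : ℤ) * D.k - D.p) ≤
      ∑ j ∈ Finset.range D.p, (D.p : ℤ) * (cnt j : ℤ) := Finset.sum_le_sum h1
  rw [← Finset.mul_sum, Finset.sum_sub_distrib, Finset.sum_sub_distrib] at h2
  simp only [Finset.sum_const, Finset.card_range, nsmul_eq_mul] at h2
  have h3 : ∑ j ∈ Finset.range D.p, 2 * (j : ℤ) * D.k = (D.p : ℤ) * ((D.p : ℤ) - 1) * D.k := by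
    rw [← Finset.sum_mul, ← Finset.mul_sum]
    have h4 := Finset.sum_range_id_mul_two D.p
    have h5 : (∑ i ∈ Finset.range D.p, (i : ℤ)) * 2 = (D.p : ℤ) * ((D.p : ℤ) - 1) := by
      have h6 : ((∑ i ∈ Finset.range D.p, i : ℕ) : ℤ) * 2 = ((D.p * (D.p - 1) : ℕ) : ℤ) := by
        exact_mod_cast h4
      rw [Nat.cast_mul, Nat.cast_sub hp] at h6
      push_cast at h6
      exact h6
    rw [mul_comm 2, h5]
  rw [h3] at h2
  have h4 : (D.p : ℤ) * (2 * m - ((D.p : ℤ) - 1) * D.k - D.p) ≤
      (D.p : ℤ) * ∑ j ∈ Finset.range D.p, (cnt j : ℤ) := by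
    calc (D.p : ℤ) * (2 * m - ((D.p : ℤ) - 1) * D.k - D.p) =
        (D.p : ℤ) * (2 * m) - (D.p : ℤ) * ((D.p : ℤ) - 1) * D.k - D.p * D.p := by ring
      _ ≤ _ := h2
  have h5 := le_of_mul_le_mul_left h4 hpz
  have h6 : (2 * m : ℤ) ≤ ((∑ j ∈ Finset.range D.p, cnt j : ℕ) : ℤ) + (D.cst : ℤ) := by
    have h7 : (D.cst : ℤ) = (D.p : ℤ) * (D.k + 1) := by simp [CD.cst]
    rw [h7]
    push_cast
    have h8 : (0 : ℤ) ≤ D.k := by positivity
    nlinarith
  exact_mod_cast h6

end Pool.Weil46
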