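import Pool.Agent.LibWeil46.RA17
import Pool.Agent.LibWeil46.RA14
import Pool.Agent.LibWeil46.RA11
set_option autoImplicit false

namespace Pool.Weil46

open Polynomial
open scoped Classical

variable {K : Type} [Field K]



/-- A28: independence of `mono s ^ r` over `L l` when `2 l < r`; the degrees of
`ν s * mono s ^ r` lie in disjoint intervals. -/
theorem CD.indep (D : CD K) (l : ℤ) (r : ℕ) (hr : 2 * l < r) (S : Finset (ℤ × ℕ))
    (hS : ∀ s ∈ S, s.2 < D.p) (ν : ℤ × ℕ → D.R) (hν : ∀ s ∈ S, ν s ∈ D.L l)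
    (h : ∑ s ∈ S, ν s * D.mono s.1 s.2 ^ r = 0) : ∀ s ∈ S, ν s = 0 := by
  by_contra hcon
  push Not at hcon
  obtain ⟨s1, hs1, hs1'⟩ := hcon
  have hne : (S.filter (fun s => ν s ≠ 0)).Nonempty := ⟨s1, Finset.mem_filter.2 ⟨hs1, hs1'⟩⟩
  obtain ⟨s0, hs0, hmax⟩ := Finset.exists_max_image _
    (fun s : ℤ × ℕ => s.1 * (D.p : ℤ) + s.2 * D.k) hne
  obtain ⟨hs0S, hs0n⟩ := Finset.mem_filter.1 hs0
  obtain ⟨d0, hd0⟩ := D.exists_hasDeg (ν s0) hs0n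
  have hd0' := D.L_deg l (ν s0) (hν s0 hs0S) d0 hd0
  have hdeg0 := D.hasDeg_mul _ _ _ _ hd0 (D.hasDeg_pow _ _ (D.hasDeg_mono s0.1 s0.2) r)
  apply hdeg0.2
  have hsplit : ν s0 * D.mono s0.1 s0.2 ^ r = -∑ s ∈ S.erase s0, ν s * D.mono s.1 s.2 ^ r := by
    rw [← Finset.add_sum_erase S _ hs0S] at h
    exact eq_neg_of_add_eq_zero_left h
  rw [hsplit]
  apply Submodule.neg_mem
  apply Submodule.sum_mem
  intro s hs
  obtain ⟨hne0, hsS⟩ := Finset.mem_erase.1 hs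
  by_cases hz : ν s = 0
  · rw [hz, zero_mul]
    exact Submodule.zero_mem _
  obtain ⟨d, hd⟩ := D.exists_hasDeg (ν s) hz
  have hd' := D.L_deg l (ν s) (hν s hsS) d hd
  have hdeg := D.hasDeg_mul _ _ _ _ hd (D.hasDeg_pow _ _ (D.hasDeg_mono s.1 s.2) r)
  have hle := hmax s (Finset.mem_filter.2 ⟨hsS, hz⟩)
  have hneq : s.1 * (D.p : ℤ) + s.2 * D.k ≠ s0.1 * (D.p : ℤ) + s0.2 * D.k := by
    intro heq
    have h2 := D.weight_inj _ _ _ _ (hS s hsS) (hS s0 hs0S) heq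
    exact hne0 (Prod.ext h2.1 h2.2)
  have hle' : s.1 * (D.p : ℤ) + s.2 * D.k + 1 ≤ s0.1 * (D.p : ℤ) + s0.2 * D.k := by
    have h3 : s.1 * (D.p : ℤ) + s.2 * D.k ≤ s0.1 * (D.p : ℤ) + s0.2 * D.k := hle
    omega
  refine D.F_le 1 _ _ ?_ hdeg.1
  have hr0 : (0 : ℤ) ≤ r := by positivity
  have hmul := mul_le_mul_of_nonneg_left hle' hr0
  rw [mul_add] at hmul
  linarith [hd'.2, hd0'.1]

end Pool.Weil46
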