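import Pool.Agent.LibWeil46.Def2
set_option autoImplicit false

namespace Pool.Weil46

open Polynomial
open scoped Classical

/-- `y ↦ y^p - y` as a linear map -/
noncomputable def B1_phi (p : ℕ) [Fact p.Prime] (K : Type) [Field K] [Algebra (ZMod p) K] :
    K →ₗ[ZMod p] K where
  toFun y := y ^ p - y
  map_add' x y := by
    have : CharP K p := charP_of_injective_algebraMap' (ZMod p) p
    rw [add_pow_char]
    ring
  map_smul' c x := by
    simp only [RingHom.id_apply, Algebra.smul_def, mul_pow]
    rw [← map_pow, ZMod.pow_card]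
    ring

theorem B1_trace_pow (p : ℕ) [Fact p.Prime] (K : Type) [Field K] [Fintype K]
    [Algebra (ZMod p) K] (x : K) :
    Algebra.trace (ZMod p) K (x ^ p) = Algebra.trace (ZMod p) K x := by
  have h := Algebra.trace_eq_of_algEquiv (FiniteField.frobeniusAlgEquivOfAlgebraic (ZMod p) K) x
  rw [FiniteField.coe_frobeniusAlgEquivOfAlgebraic, ZMod.card] at h
  exact h

/-- B1 (additive Hilbert 90) -/
theorem exists_AS (p : ℕ) [Fact p.Prime] (K : Type) [Field K] [Fintype K] [Algebra (ZMod p) K]
    (w : K) (h : Algebra.trace (ZMod p) K w = 0) : ∃ y : K, y ^ p - y = w := by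
  have hp : p.Prime := Fact.out
  have hfd : FiniteDimensional (ZMod p) K := Module.Finite.of_finite
  have hle : LinearMap.range (B1_phi p K) ≤ LinearMap.ker (Algebra.trace (ZMod p) K) := by
    rintro _ ⟨y, rfl⟩
    rw [LinearMap.mem_ker]
    show Algebra.trace (ZMod p) K (y ^ p - y) = 0
    rw [map_sub, B1_trace_pow, sub_self]
  have hker : Module.finrank (ZMod p) (LinearMap.ker (B1_phi p K)) ≤ 1 := by
    have h1 : Nat.card (LinearMap.ker (B1_phi p K)) ≤ p := by
      have h2 : (LinearMap.ker (B1_phi p K) : Set K) ⊆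
          ((X ^ p - X : K[X]).roots.toFinset : Set K) := by
        intro y hy
        have hy' : y ^ p - y = 0 := hy
        have hne : (X ^ p - X : K[X]) ≠ 0 := FiniteField.X_pow_card_sub_X_ne_zero K hp.one_lt
        simp only [Finset.mem_coe, Multiset.mem_toFinset, mem_roots hne, IsRoot.def, eval_sub,
          eval_pow, eval_X]
        exact hy'
      have h3 : Nat.card (LinearMap.ker (B1_phi p K)) =
          (LinearMap.ker (B1_phi p K) : Set K).ncard := by
        rw [← Nat.card_coe_set_eq]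
        rfl
      rw [h3]
      refine (Set.ncard_le_ncard h2).trans ?_
      rw [Set.ncard_coe_finset]
      refine (Multiset.toFinset_card_le _).trans ?_
      refine (card_roots' _).trans ?_
      rw [FiniteField.X_pow_card_sub_X_natDegree_eq K hp.one_lt]
    have h4 := Module.natCard_eq_pow_finrank (K := ZMod p) (V := LinearMap.ker (B1_phi p K))
    rw [h4, Nat.card_zmod] at h1
    by_contra hcon
    have h5 : p ^ 2 ≤ p ^ Module.finrank (ZMod p) (LinearMap.ker (B1_phi p K)) :=
      Nat.pow_le_pow_right hp.pos (by omega)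
    have h6 := hp.two_le
    nlinarith
  have hrank1 := LinearMap.finrank_range_add_finrank_ker (B1_phi p K)
  have hrank2 := LinearMap.finrank_range_add_finrank_ker (Algebra.trace (ZMod p) K)
  have hsurj : LinearMap.range (Algebra.trace (ZMod p) K) = ⊤ :=
    LinearMap.range_eq_top.mpr (Algebra.trace_surjective (ZMod p) K)
  rw [hsurj, finrank_top, Module.finrank_self] at hrank2
  have heq := Submodule.eq_of_le_of_finrank_le hle (by omega)
  have hw : w ∈ LinearMap.ker (Algebra.trace (ZMod p) K) := h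
  rw [← heq] at hw
  obtain ⟨y, hy⟩ := hw
  exact ⟨y, hy⟩

/-- B2 (multiplicative Hilbert 90) -/
theorem exists_root_of_norm_one (p : ℕ) [Fact p.Prime] (K : Type) [Field K] [Fintype K]
    [Algebra (ZMod p) K] (u : Kˣ) (h : Algebra.norm (ZMod p) (u : K) = 1) :
    ∃ z : Kˣ, z ^ (p - 1) = u := by
  have hp : p.Prime := Fact.out
  have hfd : FiniteDimensional (ZMod p) K := Module.Finite.of_finite
  have hg : ∀ x, x ∈ Subgroup.zpowers (FiniteField.frobeniusAlgEquivOfAlgebraic (ZMod p) K) := by
    intro x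
    obtain ⟨n, hn⟩ := (FiniteField.bijective_frobeniusAlgEquivOfAlgebraic_pow (ZMod p) K).2 x
    exact ⟨n.1, by simpa using hn⟩
  have hcyc : IsCyclic (K ≃ₐ[ZMod p] K) :=
    ⟨FiniteField.frobeniusAlgEquivOfAlgebraic (ZMod p) K, hg⟩
  obtain ⟨y, hy⟩ := groupCohomology.exists_div_of_norm_eq_one hg h
  rw [FiniteField.coe_frobeniusAlgEquivOfAlgebraic, ZMod.card] at hy
  refine ⟨y⁻¹, ?_⟩
  ext
  rw [← hy]
  have h1 : (y : K) ≠ 0 := y.ne_zero
  have h2 : (y : K) ^ p = (y : K) ^ (p - 1) * y := by
    rw [← pow_succ, Nat.sub_add_cancel hp.one_le]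
  rw [Units.val_pow_eq_pow_val, Units.val_inv_eq_inv_val, inv_pow]
  show ((y : K) ^ (p - 1))⁻¹ = (y : K) / (y : K) ^ p
  rw [h2]
  have h3 : (y : K) ^ (p - 1) ≠ 0 := pow_ne_zero _ h1
  field_simp

end Pool.Weil46
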