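import Pool.Agent.LibWeil46.Def2
set_option autoImplicit false

namespace Pool.Weil46

open Polynomial
open scoped Classical

section B
variable (p : ℕ) [Fact p.Prime] (K : Type) [Field K] [Fintype K] [Algebra (ZMod p) K]

/-- B4 -/
theorem sum_card_TN (a b : ZMod p) :
    ∑ t : ZMod p, ∑ s ∈ (Finset.univ.filter (fun s : ZMod p => s ≠ 0)), Nat.card (TN p K a b t s)
      = Fintype.card K - 1 := by
  have h1 : ∀ t s : ZMod p, Nat.card (TN p K a b t s) =
      (Finset.univ.filter (fun x : Kˣ => x ∈ TN p K a b t s)).card := by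
    intro t s
    rw [Nat.card_eq_fintype_card, ← Set.toFinset_card]
    congr 1
    ext x
    simp
  simp_rw [h1]
  rw [← Fintype.card_units]
  rw [← Finset.card_univ]
  rw [← Finset.sum_product']
  rw [← Finset.card_biUnion]
  · congr 1
    ext x
    simp only [Finset.mem_biUnion, Finset.mem_product, Finset.mem_univ, true_and,
      Finset.mem_filter, iff_true]
    refine ⟨(Algebra.trace (ZMod p) K (algebraMap (ZMod p) K a * (x : K)
      + algebraMap (ZMod p) K b * ((x⁻¹ : Kˣ) : K)), Algebra.norm (ZMod p) (x : K)), ?_, rfl, rfl⟩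
    intro h
    exact x.ne_zero (Algebra.norm_eq_zero_iff.mp h)
  · intro i _ j _ hij
    rw [Function.onFun, Finset.disjoint_left]
    intro x hx hy
    apply hij
    simp only [Finset.mem_filter, Finset.mem_univ, true_and] at hx hy
    exact Prod.ext (hx.1.symm.trans hy.1) (hx.2.symm.trans hy.2)

/-- B5 -/
theorem dev_of_upper {ι : Type} [Fintype ι] (M : ι → ℝ) (r A : ℝ) (hr : 1 ≤ r) (hA : 0 ≤ A)
    (hsum : ∑ i, M i = r ^ 2 - 1) (hup : ∀ i, (Fintype.card ι : ℝ) * M i ≤ r ^ 2 + A * r) (i : ι) :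
    |M i - r ^ 2 / Fintype.card ι| ≤ (A + 1) * r := by
  have hn : 0 < Fintype.card ι := Fintype.card_pos_iff.mpr ⟨i⟩
  set n : ℝ := (Fintype.card ι : ℝ) with hnn
  have hn1 : 1 ≤ n := by rw [hnn]; exact_mod_cast hn
  have hn0 : 0 < n := by linarith
  have hle : ∀ j, M j ≤ (r ^ 2 + A * r) / n := by
    intro j
    rw [le_div_iff₀ hn0]
    linarith [hup j]
  have hAr : A * r / n ≤ A * r := div_le_self (by positivity) hn1
  rw [abs_le]
  constructor
  · have h1 : ∑ j ∈ Finset.univ.erase i, M j ≤ ∑ _j ∈ Finset.univ.erase i, (r ^ 2 + A * r) / n :=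
      Finset.sum_le_sum (fun j _ => hle j)
    rw [Finset.sum_const, Finset.card_erase_of_mem (Finset.mem_univ i), Finset.card_univ,
      nsmul_eq_mul] at h1
    have h2 : M i + ∑ j ∈ Finset.univ.erase i, M j = r ^ 2 - 1 := by
      rw [← hsum, Finset.add_sum_erase _ _ (Finset.mem_univ i)]
    have h3 : ((Fintype.card ι - 1 : ℕ) : ℝ) = n - 1 := by
      rw [Nat.cast_sub hn]; simp [hnn]
    rw [h3] at h1
    have h4 : (n - 1) * ((r ^ 2 + A * r) / n) = r ^ 2 + A * r - (r ^ 2 + A * r) / n := by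
      field_simp
    rw [h4] at h1
    have h5 : (r ^ 2 + A * r) / n = r ^ 2 / n + A * r / n := by ring
    rw [h5] at h1
    have h6 : 0 ≤ A * r / n := by positivity
    linarith
  · have h5 : (r ^ 2 + A * r) / n = r ^ 2 / n + A * r / n := by ring
    have := hle i
    rw [h5] at this
    linarith

end B

end Pool.Weil46
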