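import Pool.Agent.LibWeil46.RC1
set_option autoImplicit false

namespace Pool.Weil46

open Polynomial
open scoped Classical



section C
variable (p : ℕ) [Fact p.Prime]

theorem pow_dvd_iff_le_count (f g : (ZMod p)[X]) (hf : f ≠ 0) (hg : Irreducible g) (hgm : g.Monic)
    (m : ℕ) : g ^ m ∣ f ↔ m ≤ (UniqueFactorizationMonoid.normalizedFactors f).count g := by
  have hn : normalize g = g := hgm.normalize_eq_self
  rw [UniqueFactorizationMonoid.dvd_iff_normalizedFactors_le_normalizedFactors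
    (pow_ne_zero m hg.ne_zero) hf, UniqueFactorizationMonoid.normalizedFactors_pow,
    UniqueFactorizationMonoid.normalizedFactors_irreducible hg, hn, Multiset.nsmul_singleton,
    Multiset.le_count_iff_replicate_le]

theorem natDegree_eq_sum_factors (f : (ZMod p)[X]) (hf : f.Monic) :
    f.natDegree = ∑ g ∈ (UniqueFactorizationMonoid.normalizedFactors f).toFinset,
      (UniqueFactorizationMonoid.normalizedFactors f).count g * g.natDegree := by
  have h1 : (UniqueFactorizationMonoid.normalizedFactors f).prod = f := by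
    rw [UniqueFactorizationMonoid.prod_normalizedFactors_eq hf.ne_zero, hf.normalize_eq_self]
  have h0 : (0 : (ZMod p)[X]) ∉ UniqueFactorizationMonoid.normalizedFactors f :=
    UniqueFactorizationMonoid.zero_notMem_normalizedFactors f
  have h2 : f.natDegree = ((UniqueFactorizationMonoid.normalizedFactors f).map natDegree).sum := by
    conv_lhs => rw [← h1]
    rw [natDegree_multiset_prod _ h0]
  rw [h2, Finset.sum_multiset_map_count]
  rfl

/-- C10: `deg f = ∑_{g^m ∣ f} deg g` -/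
theorem deg_eq (n : ℕ) (f : (ZMod p)[X]) (hf : f ∈ Mon p n) :
    (n : ℂ) = ∑ x ∈ PP p n, if x.2 ^ x.1.2 ∣ f then (x.1.1 : ℂ) else 0 := by
  obtain ⟨hfm, hfd⟩ := (mem_Mon p n f).1 hf
  have hf0 := hfm.ne_zero
  have hkey : n = ∑ g ∈ (UniqueFactorizationMonoid.normalizedFactors f).toFinset,
      ∑ m ∈ Finset.Icc 1 ((UniqueFactorizationMonoid.normalizedFactors f).count g), g.natDegree := by
    rw [← hfd, natDegree_eq_sum_factors p f hfm]
    refine Finset.sum_congr rfl fun g _ => ?_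
    rw [Finset.sum_const, Nat.card_Icc, smul_eq_mul]
    congr 1
  rw [← Finset.sum_filter]
  have hn : (n : ℂ) = ((∑ g ∈ (UniqueFactorizationMonoid.normalizedFactors f).toFinset,
      ∑ m ∈ Finset.Icc 1 ((UniqueFactorizationMonoid.normalizedFactors f).count g),
        g.natDegree : ℕ) : ℂ) := by rw [← hkey]
  rw [hn, Finset.sum_sigma']
  push_cast
  refine Finset.sum_bij' (fun y _ => (⟨(y.1.natDegree, y.2), y.1⟩ : Σ _ : ℕ × ℕ, (ZMod p)[X]))
    (fun x _ => (⟨x.2, x.1.2⟩ : Σ _ : (ZMod p)[X], ℕ)) ?_ ?_ ?_ ?_ ?_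
  · rintro ⟨g, m⟩ hy
    rw [Finset.mem_sigma, Multiset.mem_toFinset, Finset.mem_Icc] at hy
    obtain ⟨hg, h1, h2⟩ := hy
    rw [Polynomial.mem_normalizedFactors_iff hf0] at hg
    obtain ⟨hgi, hgm, hgd⟩ := hg
    have hdvd : g ^ m ∣ f := (pow_dvd_iff_le_count p f g hf0 hgi hgm m).2 h2
    have hdeg : 0 < g.natDegree := hgi.natDegree_pos
    have hle : g.natDegree * m ≤ n := by
      have := natDegree_le_of_dvd hdvd hf0
      rw [hgm.natDegree_pow, hfd] at this
      rwa [mul_comm]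
    have h3 : g.natDegree ≤ n := le_trans (Nat.le_mul_of_pos_right _ h1) hle
    have h4 : m ≤ n := le_trans (Nat.le_mul_of_pos_left _ hdeg) hle
    rw [Finset.mem_filter, PP, Finset.mem_sigma, Finset.mem_filter, Finset.mem_filter,
      Finset.mem_product, Finset.mem_Icc, Finset.mem_Icc, mem_Mon]
    exact ⟨⟨⟨⟨⟨hdeg, h3⟩, h1, h4⟩, hle⟩, ⟨hgm, rfl⟩, hgi⟩, hdvd⟩
  · rintro ⟨⟨d, m⟩, g⟩ hx
    rw [Finset.mem_filter, PP, Finset.mem_sigma, Finset.mem_filter, Finset.mem_filter,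
      Finset.mem_product, Finset.mem_Icc, Finset.mem_Icc, mem_Mon] at hx
    obtain ⟨⟨⟨⟨⟨h1, h2⟩, h3, h4⟩, h5⟩, ⟨hgm, hgd⟩, hgi⟩, hdvd⟩ := hx
    rw [Finset.mem_sigma, Multiset.mem_toFinset, Finset.mem_Icc, Polynomial.mem_normalizedFactors_iff hf0]
    refine ⟨⟨hgi, hgm, (dvd_pow_self g (Nat.one_le_iff_ne_zero.1 h3)).trans hdvd⟩, h3, ?_⟩
    exact (pow_dvd_iff_le_count p f g hf0 hgi hgm m).1 hdvd
  · rintro ⟨g, m⟩ _
    rfl
  · rintro ⟨⟨d, m⟩, g⟩ hx
    rw [Finset.mem_filter, PP, Finset.mem_sigma, Finset.mem_filter, Finset.mem_filter, mem_Mon] at hx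
    obtain ⟨⟨-, ⟨-, hgd⟩, -⟩, -⟩ := hx
    simp only at hgd
    simp only [hgd]
  · rintro ⟨g, m⟩ _
    rfl

end C

end Pool.Weil46
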