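import Pool.Agent.LibWeil46.Def2
set_option autoImplicit false

namespace Pool.Weil46

open Polynomial IntermediateField
open scoped Classical

theorem C14_adjoin_inv (F K : Type) [Field F] [Field K] [Algebra F K] (x : K) :
    F⟮x⁻¹⟯ = F⟮x⟯ := by
  apply le_antisymm
  · rw [adjoin_simple_le_iff]
    exact inv_mem (mem_adjoin_simple_self F x)
  · rw [adjoin_simple_le_iff]
    have h : (x⁻¹)⁻¹ ∈ F⟮x⁻¹⟯ := inv_mem (mem_adjoin_simple_self F x⁻¹)
    rwa [inv_inv] at h

theorem C14_minpoly_inv (F K : Type) [Field F] [Field K] [Algebra F K] [FiniteDimensional F K]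
    (x : K) (hx : x ≠ 0) :
    minpoly F x⁻¹ = Polynomial.C ((minpoly F x).coeff 0)⁻¹ * (minpoly F x).reverse := by
  have hint : IsIntegral F x := .of_finite F x
  have hint' : IsIntegral F x⁻¹ := .of_finite F x⁻¹
  have h0 : (minpoly F x).coeff 0 ≠ 0 := minpoly.coeff_zero_ne_zero hint hx
  have hmon := minpoly.monic hint
  have htr : (minpoly F x).natTrailingDegree = 0 := by
    rw [natTrailingDegree_eq_zero]
    exact Or.inr h0
  have hlead : (minpoly F x).reverse.leadingCoeff = (minpoly F x).coeff 0 := by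
    rw [reverse_leadingCoeff, trailingCoeff, htr]
  have hnd : (minpoly F x).reverse.natDegree = (minpoly F x).natDegree := by
    rw [reverse_natDegree, htr, Nat.sub_zero]
  have hq : (Polynomial.C ((minpoly F x).coeff 0)⁻¹ * (minpoly F x).reverse).Monic := by
    rw [Monic, leadingCoeff_mul, leadingCoeff_C, hlead, inv_mul_cancel₀ h0]
  have hqd : (Polynomial.C ((minpoly F x).coeff 0)⁻¹ * (minpoly F x).reverse).natDegree =
      (minpoly F x).natDegree := by
    rw [natDegree_C_mul (inv_ne_zero h0), hnd]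
  have haev : Polynomial.aeval x⁻¹
      (Polynomial.C ((minpoly F x).coeff 0)⁻¹ * (minpoly F x).reverse) = 0 := by
    rw [map_mul]
    have h1 := minpoly.aeval F x
    rw [aeval_def] at h1
    let _ := invertibleOfNonzero hx
    rw [← eval₂_reverse_eq_zero_iff, invOf_eq_inv] at h1
    rw [aeval_def, aeval_def, h1, mul_zero]
  have hdeg : (minpoly F x⁻¹).natDegree = (minpoly F x).natDegree := by
    rw [← adjoin.finrank hint, ← adjoin.finrank hint', C14_adjoin_inv]
  symm
  exact eq_of_monic_of_dvd_of_natDegree_le (minpoly.monic hint') hq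
    (minpoly.dvd F x⁻¹ haev) (by rw [hqd, hdeg])

theorem C14_nextCoeff_inv (F K : Type) [Field F] [Field K] [Algebra F K] [FiniteDimensional F K]
    (x : K) (hx : x ≠ 0) :
    (minpoly F x⁻¹).nextCoeff = (minpoly F x).coeff 1 / (minpoly F x).coeff 0 := by
  have hint : IsIntegral F x := .of_finite F x
  have h0 : (minpoly F x).coeff 0 ≠ 0 := minpoly.coeff_zero_ne_zero hint hx
  have hpos := minpoly.natDegree_pos hint
  have htr : (minpoly F x).natTrailingDegree = 0 := by
    rw [natTrailingDegree_eq_zero]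
    exact Or.inr h0
  rw [C14_minpoly_inv F K x hx]
  rw [nextCoeff_of_natDegree_pos (by
    rw [natDegree_C_mul (inv_ne_zero h0), reverse_natDegree, htr, Nat.sub_zero]
    exact hpos)]
  rw [natDegree_C_mul (inv_ne_zero h0), reverse_natDegree, htr, Nat.sub_zero, coeff_C_mul,
    coeff_reverse, revAt_le (Nat.sub_le _ _), Nat.sub_sub_self hpos, div_eq_inv_mul]

variable (p : ℕ) [Fact p.Prime]
variable (χ : MulChar (ZMod p) ℂ) (ψ : AddChar (ZMod p) ℂ) (a b : ZMod p)

/-- C14: value at `x` through the minimal polynomial -/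
theorem term_eq (K : Type) [Field K] [Fintype K] [Algebra (ZMod p) K] (x : Kˣ) :
    (minpoly (ZMod p) (x : K)).natDegree ∣ Module.finrank (ZMod p) K ∧
    χ (Algebra.norm (ZMod p) (x : K)) * ψ (Algebra.trace (ZMod p) K
      (algebraMap (ZMod p) K a * (x : K) + algebraMap (ZMod p) K b * ((x⁻¹ : Kˣ) : K)))
    = lam p χ ψ a b (minpoly (ZMod p) (x : K)) ^
        (Module.finrank (ZMod p) K / (minpoly (ZMod p) (x : K)).natDegree) := by
  have hfd : FiniteDimensional (ZMod p) K := Module.Finite.of_finite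
  have hint : IsIntegral (ZMod p) (x : K) := .of_finite _ _
  have hpos := minpoly.natDegree_pos hint
  have hdvd := minpoly.degree_dvd hint
  refine ⟨hdvd, ?_⟩
  have hm : Module.finrank (ZMod p)⟮(x : K)⟯ K =
      Module.finrank (ZMod p) K / (minpoly (ZMod p) (x : K)).natDegree := by
    rw [← adjoin.finrank hint, ← Module.finrank_mul_finrank (ZMod p) (ZMod p)⟮(x : K)⟯ K]
    rw [Nat.mul_div_cancel_left _ Module.finrank_pos]
  have hinv : Module.finrank (ZMod p)⟮(x : K)⁻¹⟯ K =
      Module.finrank (ZMod p) K / (minpoly (ZMod p) (x : K)).natDegree := by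
    rw [← hm, C14_adjoin_inv]
  have hnorm : Algebra.norm (ZMod p) (x : K) =
      ((-1) ^ (minpoly (ZMod p) (x : K)).natDegree * (minpoly (ZMod p) (x : K)).coeff 0) ^
        (Module.finrank (ZMod p) K / (minpoly (ZMod p) (x : K)).natDegree) := by
    rw [Algebra.norm_eq_norm_adjoin, hm]
    have h1 := Algebra.PowerBasis.norm_gen_eq_coeff_zero_minpoly (adjoin.powerBasis hint)
    rw [adjoin.powerBasis_gen, adjoin.powerBasis_dim, minpoly_gen] at h1
    rw [h1]
  have htr := trace_eq_finrank_mul_minpoly_nextCoeff (ZMod p) (x : K)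
  have htr' := trace_eq_finrank_mul_minpoly_nextCoeff (ZMod p) ((x : K)⁻¹)
  rw [hm] at htr
  rw [hinv, C14_nextCoeff_inv _ _ _ x.ne_zero] at htr'
  set m := Module.finrank (ZMod p) K / (minpoly (ZMod p) (x : K)).natDegree with hmdef
  have htrace : Algebra.trace (ZMod p) K
      (algebraMap (ZMod p) K a * (x : K) + algebraMap (ZMod p) K b * ((x⁻¹ : Kˣ) : K)) =
      m • (-(a * (minpoly (ZMod p) (x : K)).nextCoeff) -
        b * ((minpoly (ZMod p) (x : K)).coeff 1 / (minpoly (ZMod p) (x : K)).coeff 0)) := by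
    rw [map_add, ← Algebra.smul_def, ← Algebra.smul_def, map_smul, map_smul,
      Units.val_inv_eq_inv_val, htr, htr', smul_eq_mul, smul_eq_mul, nsmul_eq_mul]
    ring
  rw [htrace, hnorm, lam, map_pow, AddChar.map_nsmul_eq_pow, mul_pow]

end Pool.Weil46
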