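import Pool.Agent.LibWeil46.Def2
set_option autoImplicit false

namespace Pool.Weil46

open Polynomial
open scoped Classical

variable {K : Type} [Field K]

/-- Evaluation of a Laurent polynomial at a unit, as a homomorphism of algebras. -/
noncomputable def evL (z : Kˣ) : LaurentPolynomial K →ₐ[K] K where
  toRingHom := LaurentPolynomial.eval₂ (RingHom.id K) z
  commutes' c := LaurentPolynomial.eval₂_C (RingHom.id K) z c

theorem evL_T (z : Kˣ) (i : ℤ) : evL z (LaurentPolynomial.T i) = ((z ^ i : Kˣ) : K) :=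
  LaurentPolynomial.eval₂_T (RingHom.id K) z i

theorem evL_C (z : Kˣ) (c : K) : evL z (LaurentPolynomial.C c) = c :=
  LaurentPolynomial.eval₂_C (RingHom.id K) z c

/-- Z1: evaluation at a point (`AdjoinRoot.liftAlgHom` or `AdjoinRoot.lift`, `LaurentPolynomial.eval₂`) -/
theorem CD.exists_ev (D : CD K) (P : Kˣ × K) (hP : D.IsPt P) :
    ∃ φ : D.R →ₐ[K] K, ∀ (i : ℤ) (j : ℕ), φ (D.mono i j) = ((P.1 ^ i : Kˣ) : K) * P.2 ^ j := by
  have h : D.P.eval₂ (evL P.1 : LaurentPolynomial K →+* K) P.2 = 0 := by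
    have h1 : (evL P.1) D.f = D.α * (P.1 : K) ^ D.k + D.β * ((P.1⁻¹ : Kˣ) : K) ^ D.k - D.e := by
      unfold CD.f
      rw [map_sub, map_add, map_mul, map_mul, evL_C, evL_C, evL_C, evL_T, evL_T]
      congr 3
      rw [zpow_neg, zpow_natCast, ← inv_pow, Units.val_pow_eq_pow_val]
    unfold CD.P
    rw [eval₂_sub, eval₂_sub, eval₂_X_pow, eval₂_X, eval₂_C]
    have h2 : (evL P.1 : LaurentPolynomial K →+* K) D.f = (evL P.1) D.f := rfl
    rw [h2, h1, sub_eq_zero]
    exact hP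
  refine ⟨AdjoinRoot.liftAlgHom D.P (evL P.1) P.2 h, fun i j => ?_⟩
  have h3 : ∀ y : LaurentPolynomial K, AdjoinRoot.liftAlgHom D.P (evL P.1) P.2 h
      (AdjoinRoot.of D.P y) = evL P.1 y := fun y => AdjoinRoot.lift_of h
  have h4 : AdjoinRoot.liftAlgHom D.P (evL P.1) P.2 h (AdjoinRoot.root D.P) = P.2 :=
    AdjoinRoot.lift_root h
  unfold CD.mono
  rw [map_mul, map_pow, h3, h4, evL_T]

end Pool.Weil46
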