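import Pool.Agent.LibWeil46.Def2
set_option autoImplicit false

namespace Pool.Weil46

open Polynomial
open scoped Classical

theorem algHom_sep {K R : Type} [Field K] [CommRing R] [Algebra K R] (φ ψ : R →ₐ[K] K) (h : φ ≠ ψ) :
    ∃ x : R, φ x = 1 ∧ ψ x = 0 := by
  obtain ⟨y, hy⟩ : ∃ y, φ y ≠ ψ y := by
    by_contra h1
    push Not at h1
    exact h (AlgHom.ext h1)
  have h2 : φ y - ψ y ≠ 0 := sub_ne_zero.2 hy
  refine ⟨algebraMap K R (φ y - ψ y)⁻¹ * (y - algebraMap K R (ψ y)), ?_, ?_⟩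
  · simp only [map_mul, map_sub, AlgHom.commutes, Algebra.algebraMap_self, RingHom.id_apply]
    exact inv_mul_cancel₀ h2
  · simp only [map_mul, map_sub, AlgHom.commutes, Algebra.algebraMap_self, RingHom.id_apply]
    simp

theorem algHom_surj {K R : Type} [Field K] [CommRing R] [Algebra K R] (Z : Finset (R →ₐ[K] K))
    (g : (R →ₐ[K] K) → K) : ∃ G : R, ∀ φ ∈ Z, φ G = g φ := by
  have h1 : ∀ φ ψ : R →ₐ[K] K, ∃ x : R, φ ≠ ψ → φ x = 1 ∧ ψ x = 0 := by
    intro φ ψ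
    by_cases h : φ = ψ
    · exact ⟨0, fun h' => absurd h h'⟩
    · obtain ⟨x, hx⟩ := algHom_sep φ ψ h
      exact ⟨x, fun _ => hx⟩
  choose e he using h1
  refine ⟨∑ φ ∈ Z, algebraMap K R (g φ) * ∏ ψ ∈ Z.erase φ, e φ ψ, ?_⟩
  intro φ hφ
  rw [map_sum, Finset.sum_eq_single φ]
  · rw [map_mul, AlgHom.commutes, map_prod, Finset.prod_eq_one, mul_one]
    · rfl
    · intro ψ hψ
      exact (he φ ψ (Finset.ne_of_mem_erase hψ).symm).1
  · intro ψ hψ hne
    rw [map_mul, map_prod, Finset.prod_eq_zero (Finset.mem_erase.2 ⟨hne.symm, hφ⟩), mul_zero]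
    exact (he ψ φ hne).2
  · intro h; exact absurd hφ h

variable {K : Type} [Field K]

/-- Z2: evaluations separate -/
theorem CD.ev_surj (D : CD K) (Z : Finset (D.R →ₐ[K] K)) (g : (D.R →ₐ[K] K) → K) :
    ∃ G : D.R, ∀ φ ∈ Z, φ G = g φ :=
  algHom_surj Z g

end Pool.Weil46
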