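import Pool.Agent.LibWeil46.RZ2
import Pool.Agent.LibWeil46.RA25
import Pool.Agent.LibWeil46.RA26
import Pool.Agent.LibWeil46.RA17
import Pool.Agent.LibWeil46.RA10
import Pool.Agent.LibWeil46.RA23
set_option autoImplicit false

namespace Pool.Weil46

open Polynomial
open scoped Classical

variable {K : Type} [Field K]



theorem CD.finite_L (D : CD K) [Fintype K] (m : ℕ) : Finite (D.L m) := by
  refine Nat.finite_of_card_ne_zero ?_
  rw [D.card_L m]
  exact pow_ne_zero _ Nat.card_pos.ne'

theorem CD.finrank_L (D : CD K) [Fintype K] (m : ℕ) :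
    Module.finrank K (D.L m) = (D.I m).card := by
  have h1 := D.finite_L m
  have h2 : Nat.card (D.L m) = Nat.card K ^ Module.finrank K (D.L m) :=
    Module.natCard_eq_pow_finrank
  rw [D.card_L m] at h2
  have h3 : 1 < Nat.card K := Finite.one_lt_card
  exact (Nat.pow_right_injective h3 h2).symm

/-- Z3: number of zeros of a nonzero `G ∈ L d`. Take `n` large so that `L (n+d)` surjects onto `Z → K`
(Z2, A23); the kernel contains `G * L n`, of the cardinality of `L n` (A19); compare cardinalities
by A25. -/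
theorem CD.zeros (D : CD K) [Fintype K] (d : ℕ) (G : D.R) (hG : G ∈ D.L d) (h0 : G ≠ 0)
    (Z : Finset (D.R →ₐ[K] K)) (hZ : ∀ φ ∈ Z, φ G = 0) : Z.card ≤ 2 * d + D.p + D.cst := by
  choose E hE using fun φ : D.R →ₐ[K] K => D.ev_surj Z (Pi.single φ 1)
  obtain ⟨n, hn⟩ := D.L_exhaust (Z.image E)
  have hEL : ∀ φ ∈ Z, E φ ∈ D.L ((n + d : ℕ) : ℤ) := fun φ hφ =>
    hn (n + d) (by omega) _ (Finset.mem_image_of_mem _ hφ)
  have hf1 := D.finite_L (n + d)
  have hf2 := D.finite_L n
  let T : D.L ((n + d : ℕ) : ℤ) →ₗ[K] (Z → K) :=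
    { toFun := fun x φ => φ.1 x.1
      map_add' := by
        intro x y
        funext φ
        simp
      map_smul' := by
        intro c x
        funext φ
        simp }
  let M : D.L (n : ℤ) →ₗ[K] D.L ((n + d : ℕ) : ℤ) :=
    { toFun := fun x => ⟨G * x.1, by
        have := D.L_mul d n G x.1 hG x.2
        rwa [show ((n + d : ℕ) : ℤ) = (d : ℤ) + n by push_cast; ring]⟩
      map_add' := by
        intro x y
        ext1
        simp [mul_add]
      map_smul' := by
        intro c x
        ext1
        simp }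
  have hT : Function.Surjective T := by
    intro c
    refine ⟨⟨∑ φ ∈ Z.attach, c φ • E φ.1, ?_⟩, ?_⟩
    · exact Submodule.sum_mem _ fun φ _ => Submodule.smul_mem _ _ (hEL φ.1 φ.2)
    · funext ψ
      change ψ.1 (∑ φ ∈ Z.attach, c φ • E φ.1) = c ψ
      rw [map_sum, Finset.sum_eq_single ψ]
      · rw [map_smul, hE ψ.1 ψ.1 ψ.2]
        simp
      · intro φ _ hne
        rw [map_smul, hE φ.1 ψ.1 ψ.2, Pi.single_eq_of_ne, smul_zero]
        intro h
        exact hne (Subtype.ext h.symm)
      · intro h
        exact absurd (Finset.mem_attach _ _) h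
  have hM : Function.Injective M := by
    intro x y hxy
    have h1 : G * x.1 = G * y.1 := congrArg Subtype.val hxy
    have h2 : G * (x.1 - y.1) = 0 := by rw [mul_sub, h1, sub_self]
    rcases D.mul_eq_zero' _ _ h2 with h3 | h3
    · exact absurd h3 h0
    · exact Subtype.ext (sub_eq_zero.mp h3)
  have hMT : LinearMap.range M ≤ LinearMap.ker T := by
    rintro _ ⟨x, rfl⟩
    rw [LinearMap.mem_ker]
    funext φ
    change φ.1 (G * x.1) = 0
    rw [map_mul, hZ φ.1 φ.2, zero_mul]
  have hfin1 : Module.Finite K (D.L ((n + d : ℕ) : ℤ)) := Module.Finite.of_finite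
  have hfin2 : Module.Finite K (D.L (n : ℤ)) := Module.Finite.of_finite
  have e1 := LinearMap.finrank_range_add_finrank_ker T
  rw [LinearMap.range_eq_top.mpr hT, finrank_top, Module.finrank_fintype_fun_eq_card,
    Fintype.card_coe] at e1
  have e2 : Module.finrank K (LinearMap.range M) = Module.finrank K (D.L (n : ℤ)) :=
    LinearMap.finrank_range_of_inj hM
  have e3 : Module.finrank K (LinearMap.range M) ≤ Module.finrank K (LinearMap.ker T) :=
    Submodule.finrank_mono hMT
  rw [e2, D.finrank_L n] at e3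
  rw [D.finrank_L (n + d)] at e1
  have e4 := D.I_card_le (n + d)
  have e5 := D.le_I_card n
  omega

end Pool.Weil46
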