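import Pool.Agent.LibWeil46.RA25
import Pool.Agent.LibWeil46.RA10
import Pool.Agent.LibWeil46.RA23
set_option autoImplicit false

namespace Pool.Weil46

open Polynomial
open scoped Classical

variable {K : Type} [Field K]



theorem CD.Z4_nontrivial (D : CD K) : Nontrivial D.R := by
  have h : D.P.degree ≠ 0 := by
    have h1 := D.natDegree_P
    have h2 := D.hp.two_le
    intro h3
    have h4 : D.P.natDegree = 0 := natDegree_eq_zero_iff_degree_le_zero.2 h3.le
    omega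
  exact AdjoinRoot.nontrivial D.P h

theorem CD.Z4_charP (D : CD K) : CharP D.R D.p := by
  haveI := D.Z4_nontrivial
  haveI := D.hchar
  exact charP_of_injective_algebraMap (algebraMap K D.R).injective D.p

/-- Z4: pigeonhole. The map `(ν_s) ↦ ∑ ν_s^r mono s` from `(I m → L l)` to `L (l r + m)` is additive
(`r = p^μ`), so by cardinality (A25) it has a nonzero kernel element. -/
theorem CD.exists_aux (D : CD K) [Fintype K] (l m r μ : ℕ) (hr : r = D.p ^ μ)
    (hc : (D.I (l * r + m)).card < (D.I l).card * (D.I m).card) :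
    ∃ ν : ℤ × ℕ → D.R, (∀ s ∈ D.I m, ν s ∈ D.L l) ∧ (∃ s ∈ D.I m, ν s ≠ 0) ∧
      ∑ s ∈ D.I m, ν s ^ r * D.mono s.1 s.2 = 0 := by
  haveI := D.Z4_charP
  haveI : Fact D.p.Prime := ⟨D.hp⟩
  have hK : 1 < Nat.card K := by
    rw [Nat.card_eq_fintype_card]; exact Fintype.one_lt_card
  have hfin : ∀ n : ℕ, Finite (D.L n) := by
    intro n
    refine Nat.finite_of_card_ne_zero ?_
    rw [D.card_L n]
    positivity
  haveI := hfin l
  haveI := hfin (l * r + m)
  have hmem : ∀ ν : ↥(D.I m) → ↥(D.L (l : ℤ)),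
      ∑ s : ↥(D.I m), (ν s : D.R) ^ r * D.mono s.1.1 s.1.2 ∈ D.L ((l * r + m : ℕ) : ℤ) := by
    intro ν
    refine Submodule.sum_mem _ fun s _ => ?_
    have h1 := D.L_pow (l : ℤ) (ν s : D.R) (ν s).2 r
    have h2 := D.mono_mem_L m s.1 s.2
    have h3 := D.L_mul _ _ _ _ h1 h2
    have h4 : ((l * r + m : ℕ) : ℤ) = (r : ℤ) * (l : ℤ) + (m : ℤ) := by push_cast; ring
    rw [h4]
    exact h3
  let Φ : (↥(D.I m) → ↥(D.L (l : ℤ))) → ↥(D.L ((l * r + m : ℕ) : ℤ)) := fun ν => ⟨_, hmem ν⟩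
  have hnot : ¬ Function.Injective Φ := by
    intro hinj
    have h1 := Nat.card_le_card_of_injective Φ hinj
    rw [D.card_L (l * r + m), Nat.card_fun, D.card_L l, ← pow_mul] at h1
    have h2 : Nat.card ↥(D.I m) = (D.I m).card := by
      rw [Nat.card_eq_fintype_card, Fintype.card_coe]
    rw [h2] at h1
    have h3 := (Nat.pow_le_pow_iff_right hK).1 h1
    omega
  simp only [Function.Injective, not_forall] at hnot
  obtain ⟨ν, ν', heq, hne⟩ := hnot
  have heq2 : ∑ s : ↥(D.I m), (ν s : D.R) ^ r * D.mono s.1.1 s.1.2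
      = ∑ s : ↥(D.I m), (ν' s : D.R) ^ r * D.mono s.1.1 s.1.2 := congrArg Subtype.val heq
  refine ⟨fun s => if hs : s ∈ D.I m then (ν ⟨s, hs⟩ : D.R) - (ν' ⟨s, hs⟩ : D.R) else 0, ?_, ?_, ?_⟩
  · intro s hs
    simp only [dif_pos hs]
    exact Submodule.sub_mem _ (ν ⟨s, hs⟩).2 (ν' ⟨s, hs⟩).2
  · by_contra hcon
    push_neg at hcon
    apply hne
    funext s
    have h := hcon s.1 s.2
    simp only [dif_pos s.2] at h
    exact Subtype.ext (sub_eq_zero.1 h)
  · rw [← Finset.sum_coe_sort]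
    have : ∀ s : ↥(D.I m), (if hs : (s : ℤ × ℕ) ∈ D.I m then (ν ⟨s, hs⟩ : D.R) - (ν' ⟨s, hs⟩ : D.R) else 0) ^ r
        * D.mono (s : ℤ × ℕ).1 (s : ℤ × ℕ).2
        = (ν s : D.R) ^ r * D.mono s.1.1 s.1.2 - (ν' s : D.R) ^ r * D.mono s.1.1 s.1.2 := by
      intro s
      rw [dif_pos s.2, hr, sub_pow_char_pow, sub_mul]
    rw [Finset.sum_congr rfl fun s _ => this s, Finset.sum_sub_distrib, heq2, sub_self]

end Pool.Weil46
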