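import Pool.Agent.LibWeil46.Def2
/-! Rows Z5, Z6. -/

set_option autoImplicit false

namespace Pool.Weil46

open Polynomial
open scoped Classical

variable {K : Type} [Field K]

/-- Z5: the auxiliary function `G = ∑ ν_s mono s ^ r` vanishes at all points: `φ(G)^r = φ(∑ ν_s^r mono s^q)
= φ(∑ ν_s^r mono s) = 0` since `φ(mono s)^q = φ(mono s)` -/
theorem CD.aux_vanish (D : CD K) [Fintype K] (m r μ : ℕ) (hr : r = D.p ^ μ) (hq : Fintype.card K = r ^ 2)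
    (ν : ℤ × ℕ → D.R) (h : ∑ s ∈ D.I m, ν s ^ r * D.mono s.1 s.2 = 0) (φ : D.R →ₐ[K] K) :
    φ (∑ s ∈ D.I m, ν s * D.mono s.1 s.2 ^ r) = 0 := by
  haveI : CharP K D.p := D.hchar
  haveI : Fact D.p.Prime := ⟨D.hp⟩
  have hr0 : r ≠ 0 := by
    rw [hr]; exact pow_ne_zero _ D.hp.ne_zero
  have h1 : (φ (∑ s ∈ D.I m, ν s * D.mono s.1 s.2 ^ r)) ^ r = 0 := by
    rw [map_sum]
    calc (∑ s ∈ D.I m, φ (ν s * D.mono s.1 s.2 ^ r)) ^ r
        = ∑ s ∈ D.I m, (φ (ν s * D.mono s.1 s.2 ^ r)) ^ r := by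
          rw [hr]; exact sum_pow_char_pow (p := D.p) (n := μ) (D.I m) _
      _ = ∑ s ∈ D.I m, φ (ν s ^ r * D.mono s.1 s.2) := by
          refine Finset.sum_congr rfl fun s _ => ?_
          rw [map_mul, map_mul, mul_pow, map_pow, map_pow, ← pow_mul, ← pow_two, ← hq,
            FiniteField.pow_card]
      _ = φ (∑ s ∈ D.I m, ν s ^ r * D.mono s.1 s.2) := (map_sum _ _ _).symm
      _ = 0 := by rw [h, map_zero]
  exact (pow_eq_zero_iff hr0).1 h1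

/-- Z6: numerical choice `l = (r-1)/2`, `m = (r + 2c + 11)/2` -/
theorem numeric (c r : ℕ) (hr : (c + 5) ^ 2 ≤ r) : ∃ l m : ℕ, 2 * l < r ∧
    2 * (l + r * m) ≤ r ^ 2 + (2 * c + 12) * r ∧
    ∀ x y z : ℕ, 2 * l ≤ x + c → 2 * m ≤ y + c → z ≤ 2 * (l * r + m) + c → z < x * y := by
  have hr25 : 25 ≤ r := by
    have h0 : 5 ^ 2 ≤ (c + 5) ^ 2 := Nat.pow_le_pow_left (by omega) 2
    omega
  obtain ⟨l, hl1, hl2⟩ : ∃ l : ℕ, r ≤ 2 * l + 2 ∧ 2 * l + 1 ≤ r := ⟨(r - 1) / 2, by omega, by omega⟩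
  obtain ⟨m, hm1, hm2⟩ : ∃ m : ℕ, r + 2 * c + 10 ≤ 2 * m ∧ 2 * m ≤ r + 2 * c + 11 :=
    ⟨(r + 2 * c + 11) / 2, by omega, by omega⟩
  refine ⟨l, m, by omega, ?_, ?_⟩
  · have h1 : r * (2 * m) ≤ r * (r + 2 * c + 11) := Nat.mul_le_mul_left _ hm2
    nlinarith
  · intro x y z hx hy hz
    have hxz : (r : ℤ) - 2 - c ≤ x := by
      have : (r : ℤ) ≤ 2 * l + 2 := by exact_mod_cast hl1
      have h2 : (2 * l : ℤ) ≤ x + c := by exact_mod_cast hx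
      linarith
    have hyz : (r : ℤ) + c + 10 ≤ y := by
      have : (r : ℤ) + 2 * c + 10 ≤ 2 * m := by exact_mod_cast hm1
      have h2 : (2 * m : ℤ) ≤ y + c := by exact_mod_cast hy
      linarith
    have hrz : ((c : ℤ) + 5) ^ 2 ≤ r := by exact_mod_cast hr
    have hc0 : (0 : ℤ) ≤ c := by positivity
    have hr0 : (0 : ℤ) ≤ r := by positivity
    have hpos : (0 : ℤ) ≤ (r : ℤ) - 2 - c := by nlinarith
    have hy0 : (0 : ℤ) ≤ (r : ℤ) + c + 10 := by positivity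
    have hxy : ((r : ℤ) - 2 - c) * ((r : ℤ) + c + 10) ≤ (x : ℤ) * y :=
      mul_le_mul hxz hyz hy0 (le_trans hpos hxz)
    have hzz : (z : ℤ) ≤ 2 * (l * r + m) + c := by exact_mod_cast hz
    have hl2z : (2 * l + 1 : ℤ) ≤ r := by exact_mod_cast hl2
    have hm2z : (2 * m : ℤ) ≤ r + 2 * c + 11 := by exact_mod_cast hm2
    have h3 : (2 * l : ℤ) * r ≤ (r - 1) * r := mul_le_mul_of_nonneg_right (by linarith) hr0
    have h4 : (z : ℤ) < (x : ℤ) * y := by nlinarith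
    exact_mod_cast h4

end Pool.Weil46
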