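import Pool.Agent.LibWeil46.RZ3
import Pool.Agent.LibWeil46.RZ4
import Pool.Agent.LibWeil46.RZ5
import Pool.Agent.LibWeil46.RZ1
import Pool.Agent.LibWeil46.RA28
import Pool.Agent.LibWeil46.RA26
import Pool.Agent.LibWeil46.RA23
import Pool.Agent.LibWeil46.RA10
set_option autoImplicit false

namespace Pool.Weil46

open Polynomial
open scoped Classical

variable {K : Type} [Field K]



theorem CD.Z7_p_le_cst (D : CD K) : D.p ≤ D.cst := by
  rw [CD.cst]
  exact Nat.le_mul_of_pos_right _ (Nat.succ_pos _)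

/-- Z7: the point count, from Z3-Z6, A28, A26, A27 -/
theorem CD.hom_le (D : CD K) [Fintype K] (r μ : ℕ) (hr : r = D.p ^ μ) (hq : Fintype.card K = r ^ 2)
    (hbig : (D.cst + 5) ^ 2 ≤ r) (Z : Finset (D.R →ₐ[K] K)) :
    Z.card ≤ r ^ 2 + (4 * D.cst + 12) * r := by
  obtain ⟨l, m, h1, h2, h3⟩ := numeric D.cst r hbig
  have hpc := D.Z7_p_le_cst
  have hc : (D.I (l * r + m)).card < (D.I l).card * (D.I m).card := by
    refine h3 _ _ _ (D.le_I_card l) (D.le_I_card m) ?_
    have := D.I_card_le (l * r + m)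
    omega
  obtain ⟨ν, hν, ⟨s0, hs0, hs1⟩, hsum⟩ := D.exists_aux l m r μ hr hc
  set G : D.R := ∑ s ∈ D.I m, ν s * D.mono s.1 s.2 ^ r with hG
  have hGL : G ∈ D.L ((l + r * m : ℕ) : ℤ) := by
    refine Submodule.sum_mem _ fun s hs => ?_
    have h4 := D.L_pow (m : ℤ) _ (D.mono_mem_L m s hs) r
    have h5 := D.L_mul _ _ _ _ (hν s hs) h4
    have h6 : ((l + r * m : ℕ) : ℤ) = (l : ℤ) + (r : ℤ) * (m : ℤ) := by push_cast; ring
    rw [h6]
    exact h5
  have hG0 : G ≠ 0 := by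
    intro h0
    have h7 := D.indep (l : ℤ) r (by exact_mod_cast h1) (D.I m) (fun s hs => by
      rw [CD.I, Finset.mem_filter, Finset.mem_product, Finset.mem_range] at hs
      exact hs.1.2) ν hν h0
    exact hs1 (h7 s0 hs0)
  have h8 := D.zeros (l + r * m) G hGL hG0 Z (fun φ _ => D.aux_vanish m r μ hr hq ν hsum φ)
  have hr1 : 1 ≤ r := by
    have : 1 ≤ (D.cst + 5) ^ 2 := Nat.one_le_pow _ _ (by omega)
    omega
  have h9 : 2 * D.cst ≤ 2 * D.cst * r := Nat.le_mul_of_pos_right _ hr1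
  have h10 : (4 * D.cst + 12) * r = (2 * D.cst + 12) * r + 2 * D.cst * r := by ring
  omega

/-- Z8: from Z7 and Z1 (distinct points give distinct homs) -/
theorem CD.pts_le (D : CD K) [Fintype K] (r μ : ℕ) (hr : r = D.p ^ μ) (hq : Fintype.card K = r ^ 2)
    (hbig : (D.cst + 5) ^ 2 ≤ r) (Z : Finset (Kˣ × K)) (hZ : ∀ P ∈ Z, D.IsPt P) :
    Z.card ≤ r ^ 2 + (4 * D.cst + 12) * r := by
  choose φ hφ using fun P : ↥Z => D.exists_ev P.1 (hZ P.1 P.2)
  have hinj : Function.Injective φ := by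
    intro P Q h
    have h1 : ((P.1.1 : Kˣ) : K) = ((Q.1.1 : Kˣ) : K) := by
      have h2 := hφ P 1 0
      have h3 := hφ Q 1 0
      rw [h, h3] at h2
      simpa using h2.symm
    have h4 : P.1.2 = Q.1.2 := by
      have h2 := hφ P 0 1
      have h3 := hφ Q 0 1
      rw [h, h3] at h2
      simpa using h2.symm
    exact Subtype.ext (Prod.ext (Units.ext h1) h4)
  have h5 := D.hom_le r μ hr hq hbig (Z.attach.image φ)
  rwa [Finset.card_image_of_injective _ hinj, Finset.card_attach] at h5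

end Pool.Weil46
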